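import Pool.Agent.H98.RFT.Targets3

/-!
# Adaptive cut at a level, fixed disagreement set

Row ADC of the page `RFT_PAPER.md`.
-/

set_option autoImplicit false

noncomputable section

open MeasureTheory ProbabilityTheory Filter Topology

namespace Pool.Agent.H12.RFT

open Pool.Agent.H98.RFC Pool.Agent.H98.RFZ Pool.Agent.H98.RFT

open Classical in
/-- the number of sites of `M` before the place `k` -/
def cst (M : Finset Site) (x : ℕ → Site) (k : ℕ) : ℕ :=
  ((Finset.range k).filter (fun i => x i ∈ M)).card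

theorem cst_mono (M : Finset Site) (x : ℕ → Site) {i k : ℕ} (h : i ≤ k) :
    cst M x i ≤ cst M x k := by
  classical
  unfold cst
  apply Finset.card_le_card
  apply Finset.filter_subset_filter
  exact Finset.range_mono h

theorem cst_succ_mem (M : Finset Site) (x : ℕ → Site) {k : ℕ} (h : x k ∈ M) :
    cst M x (k + 1) = cst M x k + 1 := by
  classical
  unfold cst
  rw [Finset.range_add_one, Finset.filter_insert, if_pos h, Finset.card_insert_of_notMem]
  simp

theorem cst_succ_notMem (M : Finset Site) (x : ℕ → Site) {k : ℕ} (h : x k ∉ M) :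
    cst M x (k + 1) = cst M x k := by
  classical
  unfold cst
  rw [Finset.range_add_one, Finset.filter_insert, if_neg h]

theorem Lv_iff {V M : Finset Site} {l : ℕ} {a : Site} {D : Set Site}
    {w : Finset (Site × Site)} : Lv V M l a D w ↔
      ∃ (k : ℕ) (x : ℕ → Site), OPath D w k x ∧ x 0 ∈ V ∧ x k = a ∧ cst M x k ≤ l := Iff.rfl

theorem Lv_mono {V M : Finset Site} {l l' : ℕ} {a : Site} {D : Set Site}
    {w : Finset (Site × Site)} (hl : l ≤ l') (h : Lv V M l a D w) : Lv V M l' a D w := by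
  rw [Lv_iff] at h ⊢
  obtain ⟨k, x, h1, h2, h3, h4⟩ := h
  exact ⟨k, x, h1, h2, h3, h4.trans hl⟩

theorem cst_congr (M : Finset Site) {x y : ℕ → Site} {k : ℕ} (h : ∀ i, i < k → x i = y i) :
    cst M x k = cst M y k := by
  classical
  unfold cst
  congr 1
  apply Finset.filter_congr
  intro i hi
  rw [h i (Finset.mem_range.mp hi)]

/-- one more step -/
theorem Lv_step {V M : Finset Site} {l l' : ℕ} {a b : Site} {D : Set Site}
    {w : Finset (Site × Site)} (h : Lv V M l a D w) (hb : b ∈ D) (ho : opn w a b)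
    (hl : l ≤ l') (hl' : a ∈ M → l < l') : Lv V M l' b D w := by
  rw [Lv_iff] at h ⊢
  obtain ⟨k, x, h1, h2, h3, h4⟩ := h
  set y : ℕ → Site := fun i => if i ≤ k then x i else b with hy
  have hy1 : ∀ i, i ≤ k → y i = x i := fun i hi => by rw [hy]; simp [hi]
  have hy2 : y (k + 1) = b := by rw [hy]; simp
  refine ⟨k + 1, y, ⟨?_, ?_⟩, ?_, hy2, ?_⟩
  · intro i hi
    by_cases hik : i ≤ k
    · rw [hy1 i hik]; exact h1.1 i hik
    · have : i = k + 1 := by omega
      rw [this, hy2]; exact hb
  · intro i hi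
    by_cases hik : i < k
    · rw [hy1 i hik.le, hy1 (i + 1) hik]; exact h1.2 i hik
    · have : i = k := by omega
      rw [this, hy2, hy1 k le_rfl, h3]; exact ho
  · rw [hy1 0 (Nat.zero_le _)]; exact h2
  · by_cases hM : a ∈ M
    · rw [cst_succ_mem M y (by rw [hy1 k le_rfl, h3]; exact hM),
        cst_congr M (fun i hi => hy1 i hi.le)]
      have := hl' hM
      omega
    · rw [cst_succ_notMem M y (by rw [hy1 k le_rfl, h3]; exact hM),
        cst_congr M (fun i hi => hy1 i hi.le)]
      omega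

theorem OPath_prefix {D : Set Site} {w : Finset (Site × Site)} {k i : ℕ} {x : ℕ → Site}
    (h : OPath D w k x) (hi : i ≤ k) : OPath D w i x :=
  ⟨fun j hj => h.1 j (hj.trans hi), fun j hj => h.2 j (lt_of_lt_of_le hj hi)⟩

/-- prefixes of paths -/
theorem Lv_prefix {V M : Finset Site} {D : Set Site} {w : Finset (Site × Site)} {k i l : ℕ}
    {x : ℕ → Site} (h : OPath D w k x) (h0 : x 0 ∈ V) (hi : i ≤ k) (hl : cst M x i ≤ l) :
    Lv V M l (x i) D w := by
  rw [Lv_iff]
  exact ⟨i, x, OPath_prefix h hi, h0, rfl, hl⟩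

/-- the relevant sites -/
def uu (R : ℕ) (V L : Finset Site) : Finset Site := V ∪ hull R L

theorem self_mem_bx (x : Site) (R : ℕ) : x ∈ bx x R := by
  unfold bx
  simp

theorem subset_hull (R : ℕ) (L : Finset Site) : L ⊆ hull R L := by
  intro x hx
  unfold hull
  rw [Finset.mem_biUnion]
  exact ⟨x, hx, self_mem_bx x R⟩

theorem hull_mono (R : ℕ) {L L' : Finset Site} (h : L ⊆ L') : hull R L ⊆ hull R L' := by
  unfold hull
  exact Finset.biUnion_subset_biUnion_of_subset_left _ h

theorem prs_mem {R : ℕ} {L : Finset Site} {e : Site × Site} (h : e ∈ prs R L) :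
    e.1 ∈ hull R L ∧ e.2 ∈ hull R L ∧ e.2 - e.1 ∈ box R := by
  unfold prs at h
  rw [Finset.mem_filter, Finset.mem_product] at h
  exact ⟨h.1.1, h.1.2, h.2.2⟩

/-- ends of open edges -/
theorem opn_uu {R : ℕ} {V L : Finset Site} {w : Finset (Site × Site)}
    (hw : w ⊆ prs R (L \ V)) {a b : Site} (h : opn w a b) : a ∈ uu R V L ∧ b ∈ uu R V L := by
  have hh := hull_mono R (Finset.sdiff_subset (s := L) (t := V))
  rcases h with h | h
  · have h1 := prs_mem (hw h)
    exact ⟨Finset.mem_union_right _ (hh h1.1), Finset.mem_union_right _ (hh h1.2.1)⟩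
  · have h1 := prs_mem (hw h)
    exact ⟨Finset.mem_union_right _ (hh h1.2.1), Finset.mem_union_right _ (hh h1.1)⟩

/-- all sites of a path are relevant -/
theorem path_uu {R : ℕ} {V L : Finset Site} {w : Finset (Site × Site)}
    (hw : w ⊆ prs R (L \ V)) {D : Set Site} {k : ℕ} {x : ℕ → Site} (h : OPath D w k x)
    (h0 : x 0 ∈ V) (i : ℕ) (hi : i ≤ k) : x i ∈ uu R V L := by
  rcases i with _ | i
  · exact Finset.mem_union_left _ h0
  · exact (opn_uu hw (h.2 i (by omega))).2

theorem Lv_uu {R : ℕ} {V L M : Finset Site} {w : Finset (Site × Site)}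
    (hw : w ⊆ prs R (L \ V)) {D : Set Site} {l : ℕ} {a : Site} (h : Lv V M l a D w) :
    a ∈ uu R V L := by
  rw [Lv_iff] at h
  obtain ⟨k, x, h1, h2, h3, -⟩ := h
  rw [← h3]
  exact path_uu hw h1 h2 k le_rfl

open Classical in
/-- the sites at level at most `l`, and those at a smaller level -/
def ff2 (R : ℕ) (V L M : Finset Site) (D : Set Site) (l : ℕ) (w : Finset (Site × Site)) :
    Finset Site × Finset Site :=
  ((uu R V L).filter (fun a => Lv V M l a D w),
    (uu R V L).filter (fun a => ∃ l', l' < l ∧ Lv V M l' a D w))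

open Classical in
/-- the edges that leave the level `l` -/
def EE2 (R : ℕ) (V L M : Finset Site) (D : Set Site) (A : Finset Site × Finset Site) :
    Finset (Site × Site) :=
  (prs R (L \ V)).filter (fun e =>
    ((e.1 ∈ M ∧ e.1 ∈ A.1 ∧ e.1 ∉ A.2) ∧ e.2 ∈ D ∧ e.2 ∉ A.1) ∨
    ((e.2 ∈ M ∧ e.2 ∈ A.1 ∧ e.2 ∉ A.2) ∧ e.1 ∈ D ∧ e.1 ∉ A.1))

section

variable {R : ℕ} {V L M : Finset Site} {D : Set Site} {l : ℕ} {w w' : Finset (Site × Site)}

theorem mem_A (hw : w ⊆ prs R (L \ V)) {a : Site} :
    a ∈ (ff2 R V L M D l w).1 ↔ Lv V M l a D w := by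
  classical
  unfold ff2
  rw [Finset.mem_filter]
  exact ⟨fun h => h.2, fun h => ⟨Lv_uu hw h, h⟩⟩

theorem mem_A1 (hw : w ⊆ prs R (L \ V)) {a : Site} :
    a ∈ (ff2 R V L M D l w).2 ↔ ∃ l', l' < l ∧ Lv V M l' a D w := by
  classical
  unfold ff2
  rw [Finset.mem_filter]
  exact ⟨fun h => h.2, fun h => ⟨by obtain ⟨l', -, h'⟩ := h; exact Lv_uu hw h', h⟩⟩

/-- one end of an edge of `E` is not in `A` -/
theorem EE2_out {e : Site × Site} {A : Finset Site × Finset Site} (h : e ∈ EE2 R V L M D A) :
    e.1 ∉ A.1 ∨ e.2 ∉ A.1 := by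
  classical
  unfold EE2 at h
  rw [Finset.mem_filter] at h
  rcases h.2 with h1 | h1
  · exact Or.inr h1.2.2
  · exact Or.inl h1.2.2

/-- the end of an edge of `E` in `A` is in `M` and not in `A1` -/
theorem EE2_in {a b : Site} {A : Finset Site × Finset Site}
    (h : (a, b) ∈ EE2 R V L M D A ∨ (b, a) ∈ EE2 R V L M D A) (ha : a ∈ A.1) :
    a ∈ M ∧ a ∉ A.2 := by
  classical
  unfold EE2 at h
  rw [Finset.mem_filter, Finset.mem_filter] at h
  rcases h with h | h
  · rcases h.2 with h1 | h1
    · exact ⟨h1.1.1, h1.1.2.2⟩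
    · exact absurd ha h1.2.2
  · rcases h.2 with h1 | h1
    · exact absurd ha h1.2.2
    · exact ⟨h1.1.1, h1.1.2.2⟩

/-- paths of small cost for `w` are paths for `w'` -/
theorem path_to (hw : w ⊆ prs R (L \ V))
    (he : w \ EE2 R V L M D (ff2 R V L M D l w) = w' \ EE2 R V L M D (ff2 R V L M D l w))
    {k : ℕ} {x : ℕ → Site} (h : OPath D w k x) (h0 : x 0 ∈ V) (hc : cst M x k ≤ l) :
    OPath D w' k x := by
  refine ⟨h.1, fun i hi => ?_⟩
  have a1 : x i ∈ (ff2 R V L M D l w).1 :=
    (mem_A hw).mpr (Lv_prefix h h0 hi.le ((cst_mono M x hi.le).trans hc))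
  have a2 : x (i + 1) ∈ (ff2 R V L M D l w).1 :=
    (mem_A hw).mpr (Lv_prefix h h0 hi ((cst_mono M x hi).trans hc))
  rcases h.2 i hi with ho | ho
  · left
    have h1 : (x i, x (i + 1)) ∈ w \ EE2 R V L M D (ff2 R V L M D l w) := by
      rw [Finset.mem_sdiff]
      refine ⟨ho, fun h2 => ?_⟩
      rcases EE2_out h2 with h3 | h3
      · exact h3 a1
      · exact h3 a2
    rw [he] at h1
    exact (Finset.mem_sdiff.mp h1).1
  · right
    have h1 : (x (i + 1), x i) ∈ w \ EE2 R V L M D (ff2 R V L M D l w) := by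
      rw [Finset.mem_sdiff]
      refine ⟨ho, fun h2 => ?_⟩
      rcases EE2_out h2 with h3 | h3
      · exact h3 a2
      · exact h3 a1
    rw [he] at h1
    exact (Finset.mem_sdiff.mp h1).1

/-- paths of small cost for `w'` are paths for `w` -/
theorem path_from (hw : w ⊆ prs R (L \ V))
    (he : w \ EE2 R V L M D (ff2 R V L M D l w) = w' \ EE2 R V L M D (ff2 R V L M D l w))
    {k : ℕ} {x : ℕ → Site} (h : OPath D w' k x) (h0 : x 0 ∈ V) (hc : cst M x k ≤ l) :
    OPath D w k x := by
  have key : ∀ i, i ≤ k → OPath D w i x := by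
    intro i
    induction i with
    | zero =>
      intro _
      exact ⟨fun j hj => h.1 j (by omega), fun j hj => absurd hj (by omega)⟩
    | succ i ih =>
      intro hi
      have h1 := ih (by omega)
      refine ⟨fun j hj => h.1 j (by omega), fun j hj => ?_⟩
      by_cases hj' : j < i
      · exact h1.2 j hj'
      · have hji : j = i := by omega
        subst hji
        have a1 : x j ∈ (ff2 R V L M D l w).1 :=
          (mem_A hw).mpr (Lv_prefix h1 h0 le_rfl ((cst_mono M x (by omega : j ≤ k)).trans hc))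
        have h3 : ¬ ((x j, x (j + 1)) ∈ EE2 R V L M D (ff2 R V L M D l w) ∨
            (x (j + 1), x j) ∈ EE2 R V L M D (ff2 R V L M D l w)) := by
          intro h4
          obtain ⟨h5, h6⟩ := EE2_in h4 a1
          apply h6
          rw [mem_A1 hw]
          have h7 := cst_succ_mem M x h5
          have h8 := (cst_mono M x hi).trans hc
          exact ⟨cst M x j, by omega, Lv_prefix h1 h0 le_rfl le_rfl⟩
        rcases h.2 j (by omega) with ho | ho
        · left
          have h4 : (x j, x (j + 1)) ∈ w' \ EE2 R V L M D (ff2 R V L M D l w) := by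
            rw [Finset.mem_sdiff]
            exact ⟨ho, fun h5 => h3 (Or.inl h5)⟩
          rw [← he] at h4
          exact (Finset.mem_sdiff.mp h4).1
        · right
          have h4 : (x (j + 1), x j) ∈ w' \ EE2 R V L M D (ff2 R V L M D l w) := by
            rw [Finset.mem_sdiff]
            exact ⟨ho, fun h5 => h3 (Or.inr h5)⟩
          rw [← he] at h4
          exact (Finset.mem_sdiff.mp h4).1
  exact key k le_rfl

theorem Lv_same (hw : w ⊆ prs R (L \ V))
    (he : w \ EE2 R V L M D (ff2 R V L M D l w) = w' \ EE2 R V L M D (ff2 R V L M D l w))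
    {l' : ℕ} (hl : l' ≤ l) (a : Site) : Lv V M l' a D w' ↔ Lv V M l' a D w := by
  rw [Lv_iff, Lv_iff]
  constructor
  · rintro ⟨k, x, h1, h2, h3, h4⟩
    exact ⟨k, x, path_from hw he h1 h2 (h4.trans hl), h2, h3, h4⟩
  · rintro ⟨k, x, h1, h2, h3, h4⟩
    exact ⟨k, x, path_to hw he h1 h2 (h4.trans hl), h2, h3, h4⟩

theorem ff2_same (hw : w ⊆ prs R (L \ V))
    (he : w \ EE2 R V L M D (ff2 R V L M D l w) = w' \ EE2 R V L M D (ff2 R V L M D l w)) :
    ff2 R V L M D l w' = ff2 R V L M D l w := by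
  classical
  unfold ff2
  refine Prod.ext ?_ ?_
  · apply Finset.filter_congr
    intro a _
    exact Lv_same hw he le_rfl a
  · apply Finset.filter_congr
    intro a _
    constructor
    · rintro ⟨l', h1, h2⟩
      exact ⟨l', h1, (Lv_same hw he h1.le a).mp h2⟩
    · rintro ⟨l', h1, h2⟩
      exact ⟨l', h1, (Lv_same hw he h1.le a).mpr h2⟩

/-- the cut -/
theorem not_Cn (hw : w ⊆ prs R (L \ V)) (hA : ∀ a ∈ (ff2 R V L M D l w).1, a ∈ L)
    (he : w ∩ EE2 R V L M D (ff2 R V L M D l w) = ∅) : ¬ Cn V L D w := by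
  classical
  rintro ⟨k, x, h, h0, hk⟩
  apply hk
  apply hA
  rw [mem_A hw]
  have key : ∀ i, i ≤ k → Lv V M l (x i) D w := by
    intro i
    induction i with
    | zero =>
      intro _
      refine Lv_prefix h h0 (Nat.zero_le _) ?_
      unfold cst
      simp
    | succ i ih =>
      intro hi
      have h1 := ih (by omega)
      have ho := h.2 i (by omega)
      have hD := h.1 (i + 1) hi
      by_contra hn
      have hM : x i ∈ M := by
        by_contra hM
        exact hn (Lv_step h1 hD ho le_rfl (fun h => absurd h hM))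
      have hA1 : x i ∉ (ff2 R V L M D l w).2 := by
        intro h2
        rw [mem_A1 hw] at h2
        obtain ⟨l', h3, h4⟩ := h2
        exact hn (Lv_step h4 hD ho h3.le (fun _ => h3))
      have hA0 : x i ∈ (ff2 R V L M D l w).1 := (mem_A hw).mpr h1
      have hA2 : x (i + 1) ∉ (ff2 R V L M D l w).1 := fun h2 => hn ((mem_A hw).mp h2)
      rcases ho with ho | ho
      · have h5 : (x i, x (i + 1)) ∈ w ∩ EE2 R V L M D (ff2 R V L M D l w) := by
          rw [Finset.mem_inter]
          refine ⟨ho, ?_⟩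
          unfold EE2
          rw [Finset.mem_filter]
          exact ⟨hw ho, Or.inl ⟨⟨hM, hA0, hA1⟩, hD, hA2⟩⟩
        rw [he] at h5
        exact absurd h5 (Finset.notMem_empty _)
      · have h5 : (x (i + 1), x i) ∈ w ∩ EE2 R V L M D (ff2 R V L M D l w) := by
          rw [Finset.mem_inter]
          refine ⟨ho, ?_⟩
          unfold EE2
          rw [Finset.mem_filter]
          exact ⟨hw ho, Or.inr ⟨⟨hM, hA0, hA1⟩, hD, hA2⟩⟩
        rw [he] at h5
        exact absurd h5 (Finset.notMem_empty _)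
  exact key k le_rfl

end

/-- the cost of closing the edges of `E` -/
theorem cost_le {R : ℕ} {J : Site → ℝ} (hJ : IsCoupling R J) {T : ℝ} (hT : 0 < T)
    (V L M : Finset Site) (D : Set Site) (A : Finset Site × Finset Site) (M' : Finset Site)
    (hM' : ∀ a, a ∈ M → a ∈ A.1 → a ∉ A.2 → a ∈ M') :
    Real.exp (-(4 * Jt R J / T) * (M'.card : ℝ)) ≤
      ∏ e ∈ EE2 R V L M D A, qe J T e := by
  classical
  have h1 : ∏ e ∈ EE2 R V L M D A, qe J T e =
      Real.exp (-(2 / T) * ∑ e ∈ EE2 R V L M D A, J (e.1 - e.2)) := by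
    rw [Finset.mul_sum, Real.exp_sum]
    refine Finset.prod_congr rfl fun e _ => ?_
    unfold qe
    congr 1
    ring
  rw [h1]
  apply Real.exp_le_exp.mpr
  -- the sum over the edges with a given end
  have hrow : ∀ a : Site, ∑ e ∈ (prs R (L \ V)).filter (fun e => e.1 = a), J (e.1 - e.2) ≤
      Jt R J := by
    intro a
    unfold Jt
    refine le_trans (le_of_eq ?_) (Finset.sum_le_sum_of_subset_of_nonneg
      (s := ((prs R (L \ V)).filter (fun e => e.1 = a)).image (fun e => e.1 - e.2)) ?_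
      (fun z _ _ => hJ.nonneg z))
    · rw [Finset.sum_image]
      intro e he e' he' h
      have h2 := (Finset.mem_filter.mp he).2
      have h3 := (Finset.mem_filter.mp he').2
      refine Prod.ext (h2.trans h3.symm) ?_
      have h4 : e.1 - e.2 = e'.1 - e'.2 := h
      rw [h2, h3] at h4
      exact sub_right_injective h4
    · intro z hz
      rw [Finset.mem_image] at hz
      obtain ⟨e, he, rfl⟩ := hz
      have h2 := (prs_mem (Finset.mem_filter.mp he).1).2.2
      unfold box at h2 ⊢
      rw [Finset.mem_product, Finset.mem_Icc, Finset.mem_Icc] at h2 ⊢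
      simp only [Prod.fst_sub, Prod.snd_sub] at h2 ⊢
      omega
  have hcol : ∀ a : Site, ∑ e ∈ (prs R (L \ V)).filter (fun e => e.2 = a), J (e.1 - e.2) ≤
      Jt R J := by
    intro a
    unfold Jt
    refine le_trans (le_of_eq ?_) (Finset.sum_le_sum_of_subset_of_nonneg
      (s := ((prs R (L \ V)).filter (fun e => e.2 = a)).image (fun e => e.1 - e.2)) ?_
      (fun z _ _ => hJ.nonneg z))
    · rw [Finset.sum_image]
      intro e he e' he' h
      have h2 := (Finset.mem_filter.mp he).2
      have h3 := (Finset.mem_filter.mp he').2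
      refine Prod.ext ?_ (h2.trans h3.symm)
      have h4 : e.1 - e.2 = e'.1 - e'.2 := h
      rw [h2, h3] at h4
      exact sub_left_injective h4
    · intro z hz
      rw [Finset.mem_image] at hz
      obtain ⟨e, he, rfl⟩ := hz
      have h2 := (prs_mem (Finset.mem_filter.mp he).1).2.2
      unfold box at h2 ⊢
      rw [Finset.mem_product, Finset.mem_Icc, Finset.mem_Icc] at h2 ⊢
      simp only [Prod.fst_sub, Prod.snd_sub] at h2 ⊢
      omega
  have hsub : EE2 R V L M D A ⊆
      (M'.biUnion (fun a => (prs R (L \ V)).filter (fun e => e.1 = a))) ∪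
      (M'.biUnion (fun a => (prs R (L \ V)).filter (fun e => e.2 = a))) := by
    intro e he
    unfold EE2 at he
    rw [Finset.mem_filter] at he
    rw [Finset.mem_union, Finset.mem_biUnion, Finset.mem_biUnion]
    rcases he.2 with h2 | h2
    · left
      exact ⟨e.1, hM' _ h2.1.1 h2.1.2.1 h2.1.2.2, Finset.mem_filter.mpr ⟨he.1, rfl⟩⟩
    · right
      exact ⟨e.2, hM' _ h2.1.1 h2.1.2.1 h2.1.2.2, Finset.mem_filter.mpr ⟨he.1, rfl⟩⟩
  have hnn : ∀ e : Site × Site, 0 ≤ J (e.1 - e.2) := fun e => hJ.nonneg _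
  have hsum : ∑ e ∈ EE2 R V L M D A, J (e.1 - e.2) ≤ 2 * ((M'.card : ℝ) * Jt R J) := by
    calc ∑ e ∈ EE2 R V L M D A, J (e.1 - e.2)
        ≤ ∑ e ∈ (M'.biUnion (fun a => (prs R (L \ V)).filter (fun e => e.1 = a))) ∪
          (M'.biUnion (fun a => (prs R (L \ V)).filter (fun e => e.2 = a))), J (e.1 - e.2) :=
          Finset.sum_le_sum_of_subset_of_nonneg hsub fun e _ _ => hnn e
      _ ≤ ∑ e ∈ (M'.biUnion (fun a => (prs R (L \ V)).filter (fun e => e.1 = a))), J (e.1 - e.2)
          + ∑ e ∈ (M'.biUnion (fun a => (prs R (L \ V)).filter (fun e => e.2 = a))),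
            J (e.1 - e.2) := by
          rw [← Finset.sum_union_inter]
          exact le_add_of_nonneg_right (Finset.sum_nonneg fun e _ => hnn e)
      _ ≤ (M'.card : ℝ) * Jt R J + (M'.card : ℝ) * Jt R J := by
          refine add_le_add ?_ ?_
          · rw [Finset.sum_biUnion]
            · calc _ ≤ ∑ _a ∈ M', Jt R J := Finset.sum_le_sum fun a _ => hrow a
                _ = _ := by rw [Finset.sum_const, nsmul_eq_mul]
            · intro a _ b _ hab
              rw [Function.onFun, Finset.disjoint_left]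
              intro e he he'
              exact hab ((Finset.mem_filter.mp he).2.symm.trans (Finset.mem_filter.mp he').2)
          · rw [Finset.sum_biUnion]
            · calc _ ≤ ∑ _a ∈ M', Jt R J := Finset.sum_le_sum fun a _ => hcol a
                _ = _ := by rw [Finset.sum_const, nsmul_eq_mul]
            · intro a _ b _ hab
              rw [Function.onFun, Finset.disjoint_left]
              intro e he he'
              exact hab ((Finset.mem_filter.mp he).2.symm.trans (Finset.mem_filter.mp he').2)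
      _ = _ := by ring
  have h5 : (2 / T) * ∑ e ∈ EE2 R V L M D A, J (e.1 - e.2) ≤
      (2 / T) * (2 * ((M'.card : ℝ) * Jt R J)) := mul_le_mul_of_nonneg_left hsum (by positivity)
  have h6 : (2 / T) * (2 * ((M'.card : ℝ) * Jt R J)) = (4 * Jt R J / T) * (M'.card : ℝ) := by ring
  rw [h6] at h5
  linarith

theorem bw_nn {J : Site → ℝ} {R : ℕ} (hJ : IsCoupling R J) {T : ℝ} (hT : 0 < T)
    (P w : Finset (Site × Site)) : 0 ≤ bw P (qe J T) w := by
  classical
  unfold bw
  refine mul_nonneg (Finset.prod_nonneg fun e _ => ?_) (Finset.prod_nonneg fun e _ => ?_)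
  · have : qe J T e ≤ 1 := by
      unfold qe
      apply Real.exp_le_one_iff.mpr
      apply div_nonpos_of_nonpos_of_nonneg _ hT.le
      have := hJ.nonneg (e.1 - e.2)
      linarith
    linarith
  · exact (Real.exp_pos _).le

theorem ind_nn (p : Prop) : 0 ≤ ind p := by
  unfold ind
  split_ifs <;> norm_num

theorem ind_le_ind {p q : Prop} (h : p → q) : ind p ≤ ind q := by
  unfold ind
  by_cases hp : p
  · rw [if_pos hp, if_pos (h hp)]
  · rw [if_neg hp]
    split_ifs <;> norm_num

theorem ind_and (p q : Prop) : ind p * ind q = ind (p ∧ q) := by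
  unfold ind
  by_cases hp : p <;> by_cases hq : q <;> simp [hp, hq]

/-- ADC: adaptive cut at the level `ℓ`, fixed disagreement set. -/
theorem pf_ADC (hEXP : D_EXP) : D_ADC := by
  classical
  intro R J hJ T hT V L M hVL hML D hVD n l hl
  set P := prs R (L \ V) with hP
  have hx := hEXP (Finset Site × Finset Site) P (qe J T) (ff2 R V L M D l)
    (EE2 R V L M D) (fun A => by
      unfold EE2
      exact Finset.filter_subset _ _)
    (fun w w' hw hw' he => ff2_same hw he) (fun A => ind (∀ a ∈ A.1, a ∈ L))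
  calc ∑ ω ∈ P.powerset, bw P (qe J T) ω * (ind (¬ Th V L M n D ω) *
      Real.exp (-(4 * Jt R J / T) * ((M.filter (fun a => Lv V M l a D ω ∧
        ∀ ℓ', ℓ' < l → ¬ Lv V M ℓ' a D ω)).card : ℝ)))
      ≤ ∑ ω ∈ P.powerset, bw P (qe J T) ω * (ind (∀ a ∈ (ff2 R V L M D l ω).1, a ∈ L) *
          ∏ e ∈ EE2 R V L M D (ff2 R V L M D l ω), qe J T e) := by
        refine Finset.sum_le_sum fun w hw => ?_
        have hw' : w ⊆ P := Finset.mem_powerset.mp hw
        refine mul_le_mul_of_nonneg_left ?_ (bw_nn hJ hT P w)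
        refine mul_le_mul ?_ ?_ (Real.exp_pos _).le (ind_nn _)
        · apply ind_le_ind
          intro hTh a ha
          by_contra haL
          exact hTh ⟨a, haL, l, hl, (mem_A hw').mp ha⟩
        · refine cost_le hJ hT V L M D _ _ ?_
          intro a ha1 ha2 ha3
          rw [Finset.mem_filter]
          refine ⟨ha1, (mem_A hw').mp ha2, fun l' hl' hL => ?_⟩
          exact ha3 ((mem_A1 hw').mpr ⟨l', hl', hL⟩)
    _ = ∑ ω ∈ P.powerset, bw P (qe J T) ω * (ind (∀ a ∈ (ff2 R V L M D l ω).1, a ∈ L) *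
          ind (ω ∩ EE2 R V L M D (ff2 R V L M D l ω) = ∅)) := hx.symm
    _ ≤ ∑ ω ∈ P.powerset, bw P (qe J T) ω * ind (¬ Cn V L D ω) := by
        refine Finset.sum_le_sum fun w hw => ?_
        have hw' : w ⊆ P := Finset.mem_powerset.mp hw
        refine mul_le_mul_of_nonneg_left ?_ (bw_nn hJ hT P w)
        rw [ind_and]
        apply ind_le_ind
        rintro ⟨h1, h2⟩
        exact not_Cn hw' h1 h2

end Pool.Agent.H12.RFT
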