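import Pool.Agent.H98.RFT.Targets3
import Pool.Agent.H98.RFZ.Targets3
import Pool.Agent.H98.RFC.Targets

/-!
# Planar couplings have exponential decay at positive temperature

Row ALL3 of the page `RFT_PAPER.md`.  Twin: `H20/RFZ/QALL.lean`.
-/

set_option autoImplicit false

open MeasureTheory Filter Topology

namespace Pool.Agent.H12.RFT.All3

open Pool.Agent.H98.RFZ Pool.Agent.H98.RFC Pool.Agent.H98.RFT

lemma box_mono {a b : ℕ} (h : a ≤ b) : box a ⊆ box b := by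
  intro x hx
  unfold box at hx ⊢
  rw [Finset.mem_product, Finset.mem_Icc, Finset.mem_Icc] at hx ⊢
  have : (a : ℤ) ≤ b := by exact_mod_cast h
  obtain ⟨⟨h1, h2⟩, h3, h4⟩ := hx
  exact ⟨⟨by linarith, by linarith⟩, by linarith, by linarith⟩

lemma box_card (a : ℕ) : ((box a).card : ℝ) = (2 * (a : ℝ) + 1) ^ 2 := by
  unfold box
  rw [Finset.card_product, Int.card_Icc]
  have : ((a : ℤ) + 1 - -(a : ℤ)).toNat = 2 * a + 1 := by omega
  rw [this]
  push_cast
  ring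

lemma self_mem_eb (z : Site) (r : ℕ) : z ∈ eb z r := by
  unfold eb
  rw [Finset.mem_filter]
  constructor
  · unfold bx
    rw [Finset.mem_product, Finset.mem_Icc, Finset.mem_Icc]
    have : (0 : ℤ) ≤ r := Int.natCast_nonneg r
    exact ⟨⟨by linarith, by linarith⟩, by linarith, by linarith⟩
  · rw [sub_self]
    simp [nsq]

lemma gam_le_one (S : Set (Site → ℝ)) [IsProbabilityMeasure gam] : (gam S).toReal ≤ 1 := by
  have h := prob_le_one (μ := gam) (s := S)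
  have := ENNReal.toReal_mono ENNReal.one_ne_top h
  simpa using this

instance instGam3 : IsProbabilityMeasure gam := by
  unfold gam; infer_instance

/-- two disjoint events cannot both be likely -/
lemma two_events {S T : Set (Site → ℝ)} (hS : 3 / 4 ≤ (gam S).toReal)
    (hT : 9 / 10 ≤ (gam T).toReal) (hmeas : MeasurableSet S) : ∃ η, η ∈ S ∧ η ∈ T := by
  by_contra hcon
  push Not at hcon
  have hsub : T ⊆ Sᶜ := fun η hη hS' => hcon η hS' hη
  have h1 : (gam T).toReal ≤ (gam Sᶜ).toReal :=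
    ENNReal.toReal_mono (measure_ne_top _ _) (measure_mono hsub)
  have h2 : (gam Sᶜ).toReal = 1 - (gam S).toReal := by
    have := measureReal_compl (μ := gam) hmeas
    simpa [Measure.real] using this
  linarith



/-- the energy if only `J 0` is not zero -/
theorem en_eq {R : ℕ} {J : Site → ℝ} (hz : ∀ z, z ≠ 0 → J z = 0) (h : Site → ℝ)
    (W : Finset Site) (A A' : Set Site) (hA : ∀ x ∈ W, (x ∈ A ↔ x ∈ A')) :
    en R J h W A = en R J h W A' := by
  classical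
  have hsq : ∀ (B : Set Site) (x : Site), sg B x * sg B x = 1 := by
    intro B x
    unfold sg
    split_ifs <;> norm_num
  unfold en
  congr 1
  · congr 1
    refine Finset.sum_congr rfl fun p _ => ?_
    by_cases hp : p.1 = p.2
    · rw [hp, mul_assoc, mul_assoc, hsq, hsq]
    · rw [hz _ (sub_ne_zero.mpr hp)]
      ring
  · refine Finset.sum_congr rfl fun x hx => ?_
    have e : sg A x = sg A' x := by
      unfold sg
      exact if_congr (hA x hx) rfl rfl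
    rw [e]

theorem inf1_zero {R : ℕ} {J : Site → ℝ} (hz : ∀ z, z ≠ 0 → J z = 0) (h : Site → ℝ) (T : ℝ)
    (W : Finset Site) (x : Site) (hx : x ∈ W) : inf1 R J h T W x = 0 := by
  classical
  have hm : ∀ S : Finset Site, ∀ y ∈ W, (y ∈ (↑S ∪ (↑W)ᶜ : Set Site) ↔ y ∈ (↑S ∪ ∅ : Set Site)) := by
    intro S y hy
    simp [hy]
  have hw : ∀ S : Finset Site, wt R J h T W (↑W)ᶜ S = wt R J h T W ∅ S := by
    intro S
    unfold wt
    rw [en_eq hz h W _ _ (hm S)]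
  have hs : ∀ S : Finset Site, sg (↑S ∪ (↑W)ᶜ) x = sg (↑S ∪ ∅) x := by
    intro S
    have h1 := hm S x hx
    unfold sg
    by_cases hxs : x ∈ (↑S ∪ (↑W)ᶜ : Set Site)
    · rw [if_pos hxs, if_pos (h1.mp hxs)]
    · rw [if_neg hxs, if_neg (fun h => hxs (h1.mpr h))]
  have hmg : mg R J h T W (↑W)ᶜ x = mg R J h T W ∅ x := by
    unfold mg Zf
    simp only [hw, hs]
  unfold inf1
  rw [hmg, sub_self, zero_div]

/-- ALL3: planar couplings have exponential decay at positive temperature. -/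
theorem pf_ALL3 (hSTR : T_STR) (hRNG : R_RNG) (hSHD : R_SHD) (hBZ : R_BZ) (hPOS : R_POS)
    (hUP : R_UP) (hTYP : Q_TYP) (hLOW : R_LOW) (hINT : R_INT) (hTALL : T_ALL)
    (hTEN : D_TEN) (_hINF : D_INF) : R_ALL := by
  intro R J hJ hTri T ε hT hε
  by_contra hnot
  -- the range is positive
  have hR : 1 ≤ R := by
    by_contra hc
    have hR0 : R = 0 := by omega
    subst hR0
    have h := (hTALL 0).2.1 J hJ T ε hT.le hnot 0
    norm_num at h
  have hR1 : (1 : ℝ) ≤ R := by exact_mod_cast hR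
  -- some coupling is positive
  have hex : ∃ z, z ≠ 0 ∧ 0 < J z := by
    by_contra hc
    push Not at hc
    have hz : ∀ z, z ≠ 0 → J z = 0 := fun z hz => le_antisymm (hc z hz) (hJ.nonneg z)
    have h := (hTALL R).2.1 J hJ T ε hT.le hnot 0
    have hm : mag R J T ε 0 = 0 := by
      unfold mag infl
      simp only [hT.ne', if_false]
      have h0 : (0 : Site) ∈ box 0 := by
        unfold box
        refine Finset.mem_product.mpr ⟨?_, ?_⟩ <;> simp
      simp only [inf1_zero hz _ T (box 0) 0 h0]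
      simp
    rw [hm, mul_zero] at h
    linarith
  have hJt : 0 < Jt R J := by
    obtain ⟨z, _, hz⟩ := hex
    have hzb : z ∈ box R := by
      by_contra hc
      rw [hJ.range z hc] at hz
      exact lt_irrefl _ hz
    unfold Jt
    exact lt_of_lt_of_le hz (Finset.single_le_sum (fun z _ => hJ.nonneg z) hzb)
  obtain ⟨φ, hφ, hφ1, hstr⟩ := hSTR R J hJ T ε hT hε hnot
  obtain ⟨C, M₁, hC12, hM₁⟩ := hRNG φ hφ hφ1
  obtain ⟨C₄, hC₄, hUP'⟩ := hUP
  obtain ⟨δ₀, hδ₀, hδ₀1, n₁, hUPn⟩ := hUP' C hC12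
  obtain ⟨A, hA⟩ : ∃ A : ℝ, A = 800 * (C : ℝ) ^ 2 * R * Jt R J * (C₄ + 1) / (ε * δ₀ ^ 2) + 1 :=
    ⟨_, rfl⟩
  have hA0 : 0 < A := by rw [hA]; positivity
  obtain ⟨n₂, hLOWn⟩ := hLOW R J hJ hR hTri hJt δ₀ A C hC12 hδ₀ hδ₀1 hA0
  obtain ⟨n, hn₁, hn₂, hn1⟩ : ∃ n : ℕ, n₁ ≤ n ∧ n₂ ≤ n ∧ 1 ≤ n :=
    ⟨max (max n₁ n₂) 1, (le_max_left _ _).trans (le_max_left _ _),
      (le_max_right n₁ n₂).trans (le_max_left _ _), le_max_right _ _⟩
  have hnr : (1 : ℝ) ≤ n := by exact_mod_cast hn1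
  obtain ⟨M, hMM₁, hMc, hM30⟩ : ∃ M : ℕ, M₁ + 40 * n ≤ M ∧ ⌈100 / φ⌉₊ ≤ M ∧ 30 ≤ M :=
    ⟨max (M₁ + 40 * n) (max ⌈100 / φ⌉₊ 30), le_max_left _ _,
      (le_max_left _ _).trans (le_max_right _ _), (le_max_right _ _).trans (le_max_right _ _)⟩
  have hMφ : 100 / φ ≤ (M : ℝ) := by
    have h1 : (⌈100 / φ⌉₊ : ℝ) ≤ M := by exact_mod_cast hMc
    exact (Nat.le_ceil _).trans h1
  obtain ⟨K', hK'⟩ : ∃ K' : ℕ, K' = M + 200 + 20 * n := ⟨_, rfl⟩
  -- the parameter `δ`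
  obtain ⟨E, hE⟩ : ∃ E : ℝ, E = Real.exp (9 / 2 * A ^ 2) := ⟨_, rfl⟩
  have hE0 : 0 < E := by rw [hE]; exact Real.exp_pos _
  obtain ⟨w, hw⟩ : ∃ w : ℝ, w = δ₀ ^ 2 / (12800 * E) := ⟨_, rfl⟩
  have hw0 : 0 < w := by rw [hw]; positivity
  obtain ⟨δ, hδ0, hδ1, hδw'⟩ : ∃ δ : ℝ, 0 < δ ∧ δ < 1 ∧ δ ≤ w ^ 2 := by
    refine ⟨min (w ^ 2) (1 / 2), lt_min (by positivity) (by norm_num), ?_, min_le_left _ _⟩
    exact (min_le_right _ _).trans_lt (by norm_num)
  have hδw : Real.sqrt δ ≤ w := by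
    rw [Real.sqrt_le_left hw0.le]
    exact hδw'
  obtain ⟨u₀, hu₀⟩ := hstr M K' δ hMφ (by omega) (by omega) hδ0 hδ1
  obtain ⟨u, hu0', hu1⟩ : ∃ u : ℕ, u₀ ≤ u ∧ 10 * R + 100 ≤ u :=
    ⟨max u₀ (10 * R + 100), le_max_left _ _, le_max_right _ _⟩
  obtain ⟨v₁, v₂, hv₁, hv₂, hang, hp₁, hp₂⟩ := hu₀ u hu0'
  have hur : (1 : ℝ) ≤ u := by
    have : 1 ≤ u := by omega
    exact_mod_cast this
  -- the quantile
  obtain ⟨hc1, hc2, _, _, _⟩ := hBZ R J hJ T ε hT u C 0 hC12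
  obtain ⟨c, hc0, hcu, hcl⟩ := hTYP (fun η => bz R J (fun x => ε * η x) T u C 0) hc1 hc2 δ₀ hδ₀
    hδ₀1
  have hcpos : 0 < c := by
    rcases hc0.eq_or_lt with h | h
    · exfalso
      rw [← h] at hcu
      have hu : {η : Site → ℝ | 0 < bz R J (fun x => ε * η x) T u C 0} = Set.univ := by
        ext η
        constructor
        · intro _
          exact Set.mem_univ _
        · intro _
          exact (hPOS R J hJ hex (fun x => ε * η x) T hT).2 u C 0 (by omega) hC12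
      rw [hu] at hcu
      simp at hcu
      linarith
    · exact h
  -- upper bound for the tension
  have hten1 := hUPn n hn₁ R J hJ hR T ε c u hT hc0 (by omega) hcu
  -- the shields
  obtain ⟨V, hV⟩ : ∃ V : Finset Site, V = box (n * u) := ⟨_, rfl⟩
  obtain ⟨Λ, hΛ⟩ : ∃ Λ : Finset Site, Λ = box (8 * (n * u)) := ⟨_, rfl⟩
  have hVΛ : V ⊆ Λ := by rw [hV, hΛ]; exact box_mono (by omega)
  have hnu : (1 : ℝ) ≤ (n : ℝ) * u := one_le_mul_of_one_le_of_one_le hnr hur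
  have hshield : ∀ s : ℝ, |s| ≤ A / (n * u) → ∀ z : Site, eb z (C * u) ⊆ box (n * u) →
      ∫ η, (1 - QP R J (fun x => ε * shf (box (n * u)) s η x) T (box (8 * (n * u)))
        (fun D ω => Shield (clu (box (8 * (n * u))) D ω) z u C)) ∂gam ≤ δ₀ ^ 2 / 3200 := by
    intro s hs z hz
    have hzV : z ∈ box (n * u) := hz (self_mem_eb z _)
    have h1 := hSHD R J hJ hTri T ε δ s C n M K' u v₁ v₂ z (box (n * u)) hT
      (hM₁ n M hMM₁ v₁ v₂ hv₁ hv₂ hang u (by omega) z hzV) hzV (by omega) hδ0.le hp₁.le hp₂.le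
      (hz.trans (by rw [← hV, ← hΛ]; exact hVΛ)) (by omega)
    refine h1.trans ?_
    have h3 : s ^ 2 * ((box (n * u)).card : ℝ) / 2 ≤ 9 / 2 * A ^ 2 := by
      rw [box_card]
      push_cast
      have h4 : s ^ 2 ≤ (A / (n * u)) ^ 2 := by
        rw [← sq_abs s]
        exact pow_le_pow_left₀ (abs_nonneg _) hs 2
      have h5 : (2 * ((n : ℝ) * u) + 1) ^ 2 ≤ (3 * ((n : ℝ) * u)) ^ 2 :=
        pow_le_pow_left₀ (by positivity) (by linarith) 2
      have h6 : s ^ 2 * (2 * ((n : ℝ) * u) + 1) ^ 2 ≤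
          (A / (n * u)) ^ 2 * (3 * ((n : ℝ) * u)) ^ 2 :=
        mul_le_mul h4 h5 (by positivity) (by positivity)
      have h7 : (A / (n * u)) ^ 2 * (3 * ((n : ℝ) * u)) ^ 2 = 9 * A ^ 2 := by
        field_simp
        ring
      linarith
    have h8 : Real.exp (s ^ 2 * ((box (n * u)).card : ℝ) / 2) ≤ E := by
      rw [hE]; exact Real.exp_le_exp.2 h3
    have h9 : Real.exp (s ^ 2 * ((box (n * u)).card : ℝ) / 2) * Real.sqrt δ ≤ E * w :=
      mul_le_mul h8 hδw (Real.sqrt_nonneg _) hE0.le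
    have h10 : E * w = δ₀ ^ 2 / 12800 := by
      rw [hw]; field_simp
    rw [h10] at h9
    linarith
  -- lower bound for the influence
  obtain ⟨Y, hY⟩ : ∃ Y : ℝ, Y = δ₀ ^ 2 / 16 * ((n : ℝ) ^ 2 / (100 * (C : ℝ) ^ 2)) *
    (c * u / (R * Jt R J)) := ⟨_, rfl⟩
  have hCr : (0 : ℝ) < C := by
    have : 0 < C := by omega
    exact_mod_cast this
  have hY0 : 0 ≤ Y := by rw [hY]; positivity
  have hlow : ∀ s : ℝ, |s| ≤ A / (n * u) → 49 / 50 ≤ (gam {η |
      Y ≤ ∑ x ∈ V, inf1 R J (fun x => ε * shf V s η x) T Λ x}).toReal := by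
    intro s hs
    rw [hY, hV, hΛ]
    exact hLOWn n hn₂ T ε c s u hT hcpos (by omega) hs hcl (hshield s hs)
  have hτ : 0 < A / ((n : ℝ) * u) := by positivity
  have hhull : hull R V ⊆ Λ := by
    intro y hy
    unfold hull at hy
    rw [Finset.mem_biUnion] at hy
    obtain ⟨x, hx, hyx⟩ := hy
    rw [hV] at hx
    rw [hΛ]
    unfold box at hx ⊢
    unfold bx at hyx
    rw [Finset.mem_product, Finset.mem_Icc, Finset.mem_Icc] at hx hyx ⊢
    have hRu : R ≤ n * u := le_trans (by omega : R ≤ 1 * u) (Nat.mul_le_mul_right u hn1)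
    generalize n * u = N at hx hRu ⊢
    push_cast
    omega
  have hten2 := hINT R J hJ T ε Y (A / (n * u)) V Λ hT hε hτ hY0 hhull hVΛ hlow
  -- contradiction
  have hmeas : MeasurableSet {η : Site → ℝ | tenT R J (fun x => ε * η x) T V Λ ≤ C₄ * n * c} := by
    have h1 : Measurable (fun η : Site → ℝ => (fun x => ε * η x : Site → ℝ)) := by
      rw [measurable_pi_iff]
      intro x
      have h0 : Measurable (fun η : Site → ℝ => η x) := measurable_pi_apply x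
      exact h0.const_mul ε
    have h2 := ((hTEN R J hJ T hT V Λ hVΛ).2.2.2).comp h1
    exact measurableSet_le h2 measurable_const
  rw [← hV, ← hΛ] at hten1
  obtain ⟨η, h1, h2⟩ := two_events hten1 hten2 hmeas
  have h3 : 2 * ε * (A / (n * u)) * Y ≤ C₄ * n * c := le_trans h2 h1
  have h4 : 2 * ε * (A / (n * u)) * Y =
      (A * (ε * δ₀ ^ 2) / (800 * (C : ℝ) ^ 2 * R * Jt R J)) * (n * c) := by
    rw [hY]
    field_simp
    ring
  have h5 : C₄ + 1 ≤ A * (ε * δ₀ ^ 2) / (800 * (C : ℝ) ^ 2 * R * Jt R J) := by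
    rw [le_div_iff₀ (by positivity)]
    have h6 : 800 * (C : ℝ) ^ 2 * R * Jt R J * (C₄ + 1) / (ε * δ₀ ^ 2) ≤ A := by
      rw [hA]; linarith
    rw [div_le_iff₀ (by positivity)] at h6
    linarith
  have hnc : 0 < (n : ℝ) * c := by positivity
  rw [h4] at h3
  have h7 := mul_le_mul_of_nonneg_right h5 hnc.le
  linarith

end Pool.Agent.H12.RFT.All3

namespace Pool.Agent.H12.RFT

open Pool.Agent.H98.RFZ Pool.Agent.H98.RFC Pool.Agent.H98.RFT

theorem pf_ALL3 (hSTR : T_STR) (hRNG : R_RNG) (hSHD : R_SHD) (hBZ : R_BZ) (hPOS : R_POS)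
    (hUP : R_UP) (hTYP : Q_TYP) (hLOW : R_LOW) (hINT : R_INT) (hTALL : T_ALL)
    (hTEN : D_TEN) (hINF : D_INF) : R_ALL :=
  All3.pf_ALL3 hSTR hRNG hSHD hBZ hPOS hUP hTYP hLOW hINT hTALL hTEN hINF

end Pool.Agent.H12.RFT
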