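import Pool.Agent.H12.RFT.ADC

/-!
# Deterministic cut: upper bound for the tension

Row CUT of the page `RFT_PAPER.md`.
-/

set_option autoImplicit false

noncomputable section

open MeasureTheory ProbabilityTheory Filter Topology

namespace Pool.Agent.H12.RFT

open Pool.Agent.H98.RFC Pool.Agent.H98.RFZ Pool.Agent.H98.RFT

/-- `a` is joined to `V` inside `U` -/
def Cu (V U : Finset Site) (a : Site) (D : Set Site) (w : Finset (Site × Site)) : Prop :=
  ∃ (k : ℕ) (x : ℕ → Site), OPath (D ∩ ↑U) w k x ∧ x 0 ∈ V ∧ x k = a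

theorem opn_symm {w : Finset (Site × Site)} {a b : Site} (h : opn w a b) : opn w b a := h.symm

theorem Cu_Cv {V U : Finset Site} {a : Site} {D : Set Site} {w : Finset (Site × Site)}
    (h : Cu V U a D w) : Cv V a D w := by
  obtain ⟨k, x, h1, h2, h3⟩ := h
  refine ⟨k, fun i => x (k - i), ⟨fun i hi => (h1.1 (k - i) (by omega)).1, fun i hi => ?_⟩, ?_, ?_⟩
  · have h4 := h1.2 (k - (i + 1)) (by omega)
    have e : k - (i + 1) + 1 = k - i := by omega
    rw [e] at h4
    exact opn_symm h4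
  · simp only [Nat.sub_zero]; exact h3
  · simp only [Nat.sub_self]; exact h2

theorem Cu_base {V U : Finset Site} (hVU : V ⊆ U) {a : Site} {D : Set Site}
    {w : Finset (Site × Site)} (ha : a ∈ V) (hD : a ∈ D) : Cu V U a D w :=
  ⟨0, fun _ => a, ⟨fun _ _ => ⟨hD, hVU ha⟩, fun i hi => absurd hi (by omega)⟩, ha, rfl⟩

theorem Cu_step {V U : Finset Site} {a b : Site} {D : Set Site}
    {w : Finset (Site × Site)} (h : Cu V U a D w) (hb : b ∈ D) (hbU : b ∈ U) (ho : opn w a b) :
    Cu V U b D w := by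
  obtain ⟨k, x, h1, h2, h3⟩ := h
  set y : ℕ → Site := fun i => if i ≤ k then x i else b with hy
  have hy1 : ∀ i, i ≤ k → y i = x i := fun i hi => by rw [hy]; simp [hi]
  have hy2 : y (k + 1) = b := by rw [hy]; simp
  refine ⟨k + 1, y, ⟨?_, ?_⟩, ?_, hy2⟩
  · intro i hi
    by_cases hik : i ≤ k
    · rw [hy1 i hik]; exact h1.1 i hik
    · have : i = k + 1 := by omega
      rw [this, hy2]; exact ⟨hb, hbU⟩
  · intro i hi
    by_cases hik : i < k
    · rw [hy1 i hik.le, hy1 (i + 1) hik]; exact h1.2 i hik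
    · have : i = k := by omega
      rw [this, hy2, hy1 k le_rfl, h3]; exact ho
  · rw [hy1 0 (Nat.zero_le _)]; exact h2

theorem Cu_U {V U : Finset Site} {a : Site} {D : Set Site}
    {w : Finset (Site × Site)} (h : Cu V U a D w) : a ∈ U := by
  obtain ⟨k, x, h1, h2, h3⟩ := h
  rw [← h3]
  exact (h1.1 k le_rfl).2

open Classical in
/-- the sites joined to `V` inside `U` -/
def f3 (V U : Finset Site) (D : Set Site) (w : Finset (Site × Site)) : Finset Site :=
  U.filter (fun a => Cu V U a D w)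

theorem mem_f3 {V U : Finset Site} {D : Set Site} {w : Finset (Site × Site)} {a : Site} :
    a ∈ f3 V U D w ↔ Cu V U a D w := by
  classical
  unfold f3
  rw [Finset.mem_filter]
  exact ⟨fun h => h.2, fun h => ⟨Cu_U h, h⟩⟩

open Classical in
/-- the edges of the cut -/
def E3 (P : Finset (Site × Site)) (U : Finset Site) (D : Set Site) (A : Finset Site) :
    Finset (Site × Site) :=
  P.filter (fun e => (e.1 ∈ A ∧ e.2 ∈ D ∧ e.2 ∉ U) ∨ (e.2 ∈ A ∧ e.1 ∈ D ∧ e.1 ∉ U))

theorem Cu_same {P : Finset (Site × Site)} {V U : Finset Site} {D : Set Site}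
    {w w' : Finset (Site × Site)} {A : Finset Site}
    (he : w \ E3 P U D A = w' \ E3 P U D A) {a : Site} (h : Cu V U a D w) : Cu V U a D w' := by
  classical
  obtain ⟨k, x, h1, h2, h3⟩ := h
  have key : ∀ e : Site × Site, e.1 ∈ U → e.2 ∈ U → e ∈ w → e ∈ w' := by
    intro e he1 he2 hew
    have h4 : e ∈ w \ E3 P U D A := by
      rw [Finset.mem_sdiff]
      refine ⟨hew, fun h5 => ?_⟩
      unfold E3 at h5
      rw [Finset.mem_filter] at h5
      rcases h5.2 with h6 | h6
      · exact h6.2.2 he2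
      · exact h6.2.2 he1
    rw [he] at h4
    exact (Finset.mem_sdiff.mp h4).1
  refine ⟨k, x, ⟨h1.1, fun i hi => ?_⟩, h2, h3⟩
  have u1 := (h1.1 i hi.le).2
  have u2 := (h1.1 (i + 1) hi).2
  rcases h1.2 i hi with ho | ho
  · exact Or.inl (key _ u1 u2 ho)
  · exact Or.inr (key _ u2 u1 ho)

theorem f3_same {P : Finset (Site × Site)} {V U : Finset Site} {D : Set Site}
    {w w' : Finset (Site × Site)} {A : Finset Site}
    (he : w \ E3 P U D A = w' \ E3 P U D A) : f3 V U D w' = f3 V U D w := by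
  ext a
  rw [mem_f3, mem_f3]
  exact ⟨fun h => Cu_same he.symm h, fun h => Cu_same he h⟩

theorem not_Cn3 {P : Finset (Site × Site)} {V U L : Finset Site} (hVU : V ⊆ U) (hUL : U ⊆ L)
    {D : Set Site} {w : Finset (Site × Site)} (hw : w ⊆ P)
    (he : w ∩ E3 P U D (f3 V U D w) = ∅) : ¬ Cn V L D w := by
  classical
  rintro ⟨k, x, h, h0, hk⟩
  apply hk
  apply hUL
  have key : ∀ i, i ≤ k → Cu V U (x i) D w := by
    intro i
    induction i with
    | zero =>
      intro _
      exact Cu_base hVU h0 (h.1 0 (Nat.zero_le _))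
    | succ i ih =>
      intro hi
      have h1 := ih (by omega)
      have ho := h.2 i (by omega)
      have hD := h.1 (i + 1) hi
      by_cases hU : x (i + 1) ∈ U
      · exact Cu_step h1 hD hU ho
      · exfalso
        rcases ho with ho | ho
        · have h5 : (x i, x (i + 1)) ∈ w ∩ E3 P U D (f3 V U D w) := by
            rw [Finset.mem_inter]
            refine ⟨ho, ?_⟩
            unfold E3
            rw [Finset.mem_filter]
            exact ⟨hw ho, Or.inl ⟨mem_f3.mpr h1, hD, hU⟩⟩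
          rw [he] at h5
          exact absurd h5 (Finset.notMem_empty _)
        · have h5 : (x (i + 1), x i) ∈ w ∩ E3 P U D (f3 V U D w) := by
            rw [Finset.mem_inter]
            refine ⟨ho, ?_⟩
            unfold E3
            rw [Finset.mem_filter]
            exact ⟨hw ho, Or.inr ⟨mem_f3.mpr h1, hD, hU⟩⟩
          rw [he] at h5
          exact absurd h5 (Finset.notMem_empty _)
  exact Cu_U (key k le_rfl)

/-- the cost of the cut at `a` -/
def cc (R : ℕ) (J : Site → ℝ) (U : Finset Site) (a : Site) : ℝ :=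
  ∑ b ∈ hull R U \ U, J (a - b)

theorem mem_hull_of {R : ℕ} {U : Finset Site} {a b : Site} (ha : a ∈ U) (h : b - a ∈ box R) :
    b ∈ hull R U := by
  unfold hull
  rw [Finset.mem_biUnion]
  refine ⟨a, ha, ?_⟩
  unfold box at h
  unfold bx
  rw [Finset.mem_product, Finset.mem_Icc, Finset.mem_Icc] at h ⊢
  simp only [Prod.fst_sub, Prod.snd_sub] at h
  omega

theorem cost3_le {R : ℕ} {J : Site → ℝ} (hJ : IsCoupling R J) {T : ℝ} (hT : 0 < T)
    (W U : Finset Site) (D : Set Site) (A : Finset Site) (hA : A ⊆ U) :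
    Real.exp (-(∑ a ∈ A, (4 / T) * cc R J U a)) ≤
      ∏ e ∈ E3 (prs R W) U D A, qe J T e := by
  classical
  have h1 : ∏ e ∈ E3 (prs R W) U D A, qe J T e =
      Real.exp (-(2 / T) * ∑ e ∈ E3 (prs R W) U D A, J (e.1 - e.2)) := by
    rw [Finset.mul_sum, Real.exp_sum]
    refine Finset.prod_congr rfl fun e _ => ?_
    unfold qe
    congr 1
    ring
  rw [h1]
  apply Real.exp_le_exp.mpr
  have hnn : ∀ e : Site × Site, 0 ≤ J (e.1 - e.2) := fun e => hJ.nonneg _
  have hsub : E3 (prs R W) U D A ⊆ (A ×ˢ (hull R U \ U)) ∪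
      ((A ×ˢ (hull R U \ U)).image Prod.swap) := by
    intro e he
    unfold E3 at he
    rw [Finset.mem_filter] at he
    have hp := prs_mem he.1
    rw [Finset.mem_union]
    rcases he.2 with h2 | h2
    · left
      rw [Finset.mem_product, Finset.mem_sdiff]
      exact ⟨h2.1, mem_hull_of (hA h2.1) hp.2.2, h2.2.2⟩
    · right
      rw [Finset.mem_image]
      refine ⟨(e.2, e.1), ?_, rfl⟩
      rw [Finset.mem_product, Finset.mem_sdiff]
      refine ⟨h2.1, mem_hull_of (hA h2.1) ?_, h2.2.2⟩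
      have h3 := hp.2.2
      unfold box at h3 ⊢
      rw [Finset.mem_product, Finset.mem_Icc, Finset.mem_Icc] at h3 ⊢
      simp only [Prod.fst_sub, Prod.snd_sub] at h3 ⊢
      omega
  have hS : ∑ e ∈ A ×ˢ (hull R U \ U), J (e.1 - e.2) = ∑ a ∈ A, cc R J U a := by
    rw [Finset.sum_product]
    rfl
  have hS' : ∑ e ∈ (A ×ˢ (hull R U \ U)).image Prod.swap, J (e.1 - e.2) =
      ∑ a ∈ A, cc R J U a := by
    rw [Finset.sum_image (fun a _ b _ h => Prod.swap_injective h), ← hS]
    refine Finset.sum_congr rfl fun e _ => ?_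
    show J (e.2 - e.1) = J (e.1 - e.2)
    rw [← hJ.even (e.1 - e.2), neg_sub]
  have hsum : ∑ e ∈ E3 (prs R W) U D A, J (e.1 - e.2) ≤ 2 * ∑ a ∈ A, cc R J U a := by
    calc ∑ e ∈ E3 (prs R W) U D A, J (e.1 - e.2)
        ≤ ∑ e ∈ (A ×ˢ (hull R U \ U)) ∪ ((A ×ˢ (hull R U \ U)).image Prod.swap),
          J (e.1 - e.2) := Finset.sum_le_sum_of_subset_of_nonneg hsub fun e _ _ => hnn e
      _ ≤ ∑ e ∈ A ×ˢ (hull R U \ U), J (e.1 - e.2) +
          ∑ e ∈ (A ×ˢ (hull R U \ U)).image Prod.swap, J (e.1 - e.2) := by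
          rw [← Finset.sum_union_inter]
          exact le_add_of_nonneg_right (Finset.sum_nonneg fun e _ => hnn e)
      _ = _ := by rw [hS, hS']; ring
  have h5 : (2 / T) * ∑ e ∈ E3 (prs R W) U D A, J (e.1 - e.2) ≤
      (2 / T) * (2 * ∑ a ∈ A, cc R J U a) := mul_le_mul_of_nonneg_left hsum (by positivity)
  have h6 : (2 / T) * (2 * ∑ a ∈ A, cc R J U a) = ∑ a ∈ A, (4 / T) * cc R J U a := by
    rw [← Finset.mul_sum]; ring
  rw [h6] at h5
  linarith

theorem cc_nn {R : ℕ} {J : Site → ℝ} (hJ : IsCoupling R J) (U : Finset Site) (a : Site) :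
    0 ≤ cc R J U a := Finset.sum_nonneg fun b _ => hJ.nonneg _

theorem wt_pos (R : ℕ) (J h : Site → ℝ) (T : ℝ) (L : Finset Site) (B : Set Site)
    (S : Finset Site) : 0 < wt R J h T L B S := Real.exp_pos _

theorem Zf_pos (R : ℕ) (J h : Site → ℝ) (T : ℝ) (L : Finset Site) (B : Set Site) :
    0 < Zf R J h T L B := by
  unfold Zf
  exact Finset.sum_pos (fun S _ => wt_pos R J h T L B S) ⟨∅, Finset.empty_mem_powerset _⟩

/-- comparison of the inner sums -/
theorem Qe_mono_inner (R : ℕ) (J h : Site → ℝ) (T : ℝ) (W : Finset Site)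
    (F G : Finset Site → Finset Site → Finset (Site × Site) → ℝ)
    (hFG : ∀ S S', S ⊆ W → S' ⊆ W →
      ∑ ω ∈ (prs R W).powerset, bw (prs R W) (qe J T) ω * F S S' ω ≤
        ∑ ω ∈ (prs R W).powerset, bw (prs R W) (qe J T) ω * G S S' ω) :
    Qe R J h T W F ≤ Qe R J h T W G := by
  unfold Qe Qg
  refine div_le_div_of_nonneg_right ?_
    (mul_pos (Zf_pos R J h T W _) (Zf_pos R J h T W _)).le
  refine Finset.sum_le_sum fun S hS => Finset.sum_le_sum fun S' hS' => ?_
  have h1 := hFG S S' (Finset.mem_powerset.mp hS) (Finset.mem_powerset.mp hS')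
  have h2 := mul_le_mul_of_nonneg_left h1
    (mul_pos (wt_pos R J h T W (↑W)ᶜ S) (wt_pos R J h T W ∅ S')).le
  rw [Finset.mul_sum, Finset.mul_sum] at h2
  simp only [← mul_assoc] at h2 ⊢
  exact h2

/-- CUT: deterministic cut, upper bound for the tension. -/
theorem pf_CUT (hEXP : D_EXP) (_hQP : D_QP) (hBAS : D_BAS) (_hTEN : D_TEN) : D_CUT := by
  classical
  intro R J hJ h T hT V U L hVU hUL
  set W := L \ V with hW
  obtain ⟨b1, b2, b3, b4, b5⟩ := hBAS R J hJ h T hT W
  -- the expected cost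
  set Y : Finset Site → Finset Site → Finset (Site × Site) → ℝ := fun S S' ω =>
    ∑ a ∈ U, ((4 / T) * cc R J U a) * ind (Cv V a (Dq W S S') ω) with hY
  set m : ℝ := Qe R J h T W Y with hm
  have hm1 : T * m = 4 * ∑ a ∈ U, ∑ b ∈ hull R U \ U, J (a - b) * QP R J h T W (Cv V a) := by
    have e1 : m = ∑ a ∈ U, ((4 / T) * cc R J U a) * QP R J h T W (Cv V a) := by
      rw [hm, hY, b5]
      refine Finset.sum_congr rfl fun a _ => ?_
      rw [b3]
      rfl
    rw [e1, Finset.mul_sum, Finset.mul_sum]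
    refine Finset.sum_congr rfl fun a _ => ?_
    unfold cc
    rw [← Finset.sum_mul]
    field_simp
  -- Jensen
  have hj : Real.exp (-m) ≤ Qe R J h T W (fun S S' ω => Real.exp (-(Y S S' ω))) := by
    have e1 : Qe R J h T W (fun S S' ω => Real.exp (-m) * (1 + m) + (-Real.exp (-m)) * Y S S' ω) =
        Real.exp (-m) := by
      rw [b2, b1, b3, ← hm]
      ring
    rw [← e1]
    apply b4
    intro S S' ω _ _ _ _
    have h1 := Real.add_one_le_exp (m - Y S S' ω)
    have h2 : Real.exp (-(Y S S' ω)) = Real.exp (-m) * Real.exp (m - Y S S' ω) := by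
      rw [← Real.exp_add]; congr 1; ring
    rw [h2]
    have h3 := mul_le_mul_of_nonneg_left h1 (Real.exp_pos (-m)).le
    linarith
  -- the exploration
  have hcomp : Qe R J h T W (fun S S' ω => Real.exp (-(Y S S' ω))) ≤
      QP R J h T W (fun D ω => ¬ Cn V L D ω) := by
    unfold QP Qd
    apply Qe_mono_inner
    intro S S' hS hS'
    set D := Dq W S S' with hD
    have hx := hEXP (Finset Site) (prs R W) (qe J T) (f3 V U D) (E3 (prs R W) U D)
      (fun A => by
        unfold E3
        exact Finset.filter_subset _ _)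
      (fun w w' _ _ he => f3_same he) (fun _ => 1)
    calc ∑ ω ∈ (prs R W).powerset, bw (prs R W) (qe J T) ω * Real.exp (-(Y S S' ω))
        ≤ ∑ ω ∈ (prs R W).powerset, bw (prs R W) (qe J T) ω *
            (1 * ∏ e ∈ E3 (prs R W) U D (f3 V U D ω), qe J T e) := by
          refine Finset.sum_le_sum fun w hw => ?_
          refine mul_le_mul_of_nonneg_left ?_ (bw_nn hJ hT _ w)
          rw [one_mul]
          refine le_trans ?_ (cost3_le hJ hT W U D (f3 V U D w) (fun a ha => Cu_U (mem_f3.mp ha)))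
          apply Real.exp_le_exp.mpr
          apply neg_le_neg
          rw [hY]
          calc ∑ a ∈ f3 V U D w, (4 / T) * cc R J U a
              = ∑ a ∈ f3 V U D w, ((4 / T) * cc R J U a) * ind (Cv V a D w) := by
                refine Finset.sum_congr rfl fun a ha => ?_
                unfold ind
                rw [if_pos (Cu_Cv (mem_f3.mp ha)), mul_one]
            _ ≤ ∑ a ∈ U, ((4 / T) * cc R J U a) * ind (Cv V a D w) :=
                Finset.sum_le_sum_of_subset_of_nonneg (fun a ha => Cu_U (mem_f3.mp ha))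
                  fun a _ _ => mul_nonneg (mul_nonneg (by positivity) (cc_nn hJ U a)) (ind_nn _)
      _ = ∑ ω ∈ (prs R W).powerset, bw (prs R W) (qe J T) ω *
            (1 * ind (ω ∩ E3 (prs R W) U D (f3 V U D ω) = ∅)) := hx.symm
      _ ≤ ∑ ω ∈ (prs R W).powerset, bw (prs R W) (qe J T) ω * ind (¬ Cn V L D ω) := by
          refine Finset.sum_le_sum fun w hw => ?_
          refine mul_le_mul_of_nonneg_left ?_ (bw_nn hJ hT _ w)
          rw [one_mul]
          apply ind_le_ind
          intro he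
          exact not_Cn3 hVU hUL (Finset.mem_powerset.mp hw) he
  have hfin := hj.trans hcomp
  have hlog : -m ≤ Real.log (QP R J h T W (fun D ω => ¬ Cn V L D ω)) := by
    rw [Real.le_log_iff_exp_le (lt_of_lt_of_le (Real.exp_pos _) hfin)]
    exact hfin
  unfold tenT
  rw [← hW, ← hm1]
  have := mul_le_mul_of_nonneg_left hlog hT.le
  linarith

end Pool.Agent.H12.RFT
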