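import Pool.Agent.H98.RFT.Targets3
import Pool.Agent.H98.RFZ.Lin

/-!
# Linear changes of coordinates (positive temperature)

Row LIN3 of the page `RFT_PAPER.md`.  Twin: `H98/RFZ/Lin.lean`, `Lin2.lean`.
-/

set_option autoImplicit false

noncomputable section

open MeasureTheory ProbabilityTheory Filter Topology

namespace Pool.Agent.H12.RFT

open Pool.Agent.H98.RFC Pool.Agent.H98.RFZ Pool.Agent.H98.RFT Pool.Agent.H98.RFZ.Lin

theorem sum_im (A : Site ≃+ Site) (L : Finset Site) (F : Finset Site → ℝ) :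
    ∑ S ∈ (im A L).powerset, F S = ∑ S ∈ L.powerset, F (im A S) := by
  symm
  refine Finset.sum_bij (fun S _ => im A S) ?_ ?_ ?_ ?_
  · intro S hS
    rw [Finset.mem_powerset] at hS ⊢
    exact (im_sub A S L).2 hS
  · intro S _ S' _ h
    exact Finset.map_injective _ h
  · intro S hS
    obtain ⟨S', rfl⟩ := ex_im A S
    rw [Finset.mem_powerset] at hS
    exact ⟨S', Finset.mem_powerset.mpr ((im_sub A S' L).1 hS), rfl⟩
  · intro S _
    rfl

theorem mg_lin (A : Site ≃+ Site) (R R' : ℕ) (J J' h : Site → ℝ) (T : ℝ)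
    (hJ : ∀ z, z ∉ box R → J z = 0) (hJ' : ∀ z, z ∉ box R' → J' z = 0)
    (hJJ : ∀ z, J' z = J (A z)) (L : Finset Site) (B : Set Site) (x : Site) :
    mg R J h T (im A L) B (A x) = mg R' J' (fun x => h (A x)) T L (A ⁻¹' B) x := by
  have hw : ∀ S : Finset Site, wt R J h T (im A L) B (im A S) =
      wt R' J' (fun x => h (A x)) T L (A ⁻¹' B) S := by
    intro S
    unfold wt
    rw [en_lin A R R' J J' h hJ hJ' hJJ, pre_im]
  have hs : ∀ S : Finset Site, sg (↑(im A S) ∪ B) (A x) = sg (↑S ∪ A ⁻¹' B) x := by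
    intro S
    rw [← pre_im]
    rfl
  unfold mg Zf
  rw [sum_im, sum_im]
  congr 1
  · refine Finset.sum_congr rfl fun S _ => ?_
    rw [hw, hs]
  · refine Finset.sum_congr rfl fun S _ => ?_
    rw [hw]

theorem inf1_lin (A : Site ≃+ Site) (R R' : ℕ) (J J' h : Site → ℝ) (T : ℝ)
    (hJ : ∀ z, z ∉ box R → J z = 0) (hJ' : ∀ z, z ∉ box R' → J' z = 0)
    (hJJ : ∀ z, J' z = J (A z)) (L : Finset Site) (x : Site) :
    inf1 R J h T (im A L) (A x) = inf1 R' J' (fun x => h (A x)) T L x := by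
  have hc : A ⁻¹' ((↑(im A L) : Set Site)ᶜ) = ((↑L : Set Site))ᶜ := by
    ext z
    simp only [Set.mem_preimage, Set.mem_compl_iff, Finset.mem_coe, mem_im]
  unfold inf1
  rw [mg_lin A R R' J J' h T hJ hJ' hJJ, mg_lin A R R' J J' h T hJ hJ' hJJ, hc,
    Set.preimage_empty]

theorem zero_mem_box (L : ℕ) : (0 : Site) ∈ box L := by
  rw [Pool.Agent.H11.RFC.mem_box]
  simp

/-- integrability of the influence -/
theorem inf1_int (hINF : D_INF) (hCNT : D_CNT) (R : ℕ) (J : Site → ℝ) (hJ : IsCoupling R J)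
    (T ε : ℝ) (hT : 0 < T) (W : Finset Site) (x : Site) (hx : x ∈ W) :
    Integrable (fun η : Site → ℝ => inf1 R J (fun z => ε * η z) T W x) gam := by
  have hprob : IsProbabilityMeasure gam := by unfold gam; infer_instance
  have h1 : Measurable (fun (η : Site → ℝ) (x : Site) => ε * η x) := by
    refine measurable_pi_lambda _ fun x => ?_
    refine Measurable.const_mul ?_ ε
    exact measurable_pi_apply x
  have h2 : Measurable (fun η : Site → ℝ => inf1 R J (fun z => ε * η z) T W x) :=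
    ((hCNT R J T hT W).2.2 x).measurable.comp h1
  refine Integrable.of_bound (C := 1) h2.aestronglyMeasurable ?_
  filter_upwards with η
  have h3 := (hINF R J hJ (fun z => ε * η z) T hT).1 W x hx
  rw [Real.norm_eq_abs, abs_of_nonneg h3.2.1]
  exact h3.2.2

theorem mag_eq (R : ℕ) (J : Site → ℝ) (T ε : ℝ) (hT : 0 < T) (L : ℕ) :
    mag R J T ε L = ∫ η, inf1 R J (fun x => ε * η x) T (box L) 0 ∂gam := by
  unfold mag infl
  simp only [hT.ne', if_false]

theorem mag_lin' (hINF : D_INF) (hCNT : D_CNT) (A : Site ≃+ Site) (R R' : ℕ) (J J' : Site → ℝ)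
    (hJ : IsCoupling R J) (hJ' : IsCoupling R' J') (hJJ : ∀ z, J' z = J (A z)) (T ε : ℝ)
    (hT : 0 < T) (L L' : ℕ) (hL : ∀ x, x ∈ box L' → A x ∈ box L) :
    mag R J T ε L ≤ mag R' J' T ε L' := by
  have hprob : IsProbabilityMeasure gam := by unfold gam; infer_instance
  rw [mag_eq R J T ε hT, mag_eq R' J' T ε hT]
  have hsub : im A (box L') ⊆ box L := by
    intro z hz
    obtain ⟨x, rfl⟩ := A.surjective z
    exact hL x ((mem_im A _ x).1 hz)
  have h0 : (0 : Site) ∈ im A (box L') := by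
    have h2 := (mem_im A _ 0).2 (zero_mem_box L')
    rwa [map_zero] at h2
  have hm : Measurable (fun (η : Site → ℝ) (x : Site) => η (A x)) :=
    measurable_pi_lambda _ fun x => measurable_pi_apply (A x)
  have hg : gam.map (fun (η : Site → ℝ) (x : Site) => η (A x)) = gam := gam_perm A.toEquiv
  have h1 : Measurable (fun (η : Site → ℝ) (x : Site) => ε * η x) := by
    refine measurable_pi_lambda _ fun x => ?_
    refine Measurable.const_mul ?_ ε
    exact measurable_pi_apply x
  have h2 : Measurable (fun η : Site → ℝ => inf1 R' J' (fun z => ε * η z) T (box L') 0) :=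
    ((hCNT R' J' T hT (box L')).2.2 0).measurable.comp h1
  have h3 : ∫ η, inf1 R' J' (fun x => ε * η x) T (box L') 0 ∂gam =
      ∫ η, inf1 R J (fun x => ε * η x) T (im A (box L')) 0 ∂gam := by
    conv_lhs => rw [← hg]
    rw [integral_map hm.aemeasurable h2.aestronglyMeasurable]
    refine integral_congr_ae (ae_of_all _ fun η => ?_)
    have h4 := inf1_lin A R R' J J' (fun x => ε * η x) T hJ.range hJ'.range hJJ (box L') 0
    rw [map_zero] at h4
    exact h4.symm
  rw [h3]
  refine integral_mono (inf1_int hINF hCNT R J hJ T ε hT _ 0 (zero_mem_box L))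
    (inf1_int hINF hCNT R J hJ T ε hT _ 0 h0) fun η => ?_
  exact ((hINF R J hJ (fun x => ε * η x) T hT).2.1 _ _ hsub 0 h0).2

theorem exp_lin' (hINF : D_INF) (hCNT : D_CNT) (A : Site ≃+ Site) (R R' : ℕ) (J J' : Site → ℝ)
    (hJ : IsCoupling R J) (hJ' : IsCoupling R' J') (hJJ : ∀ z, J' z = J (A z)) (T ε : ℝ)
    (hT : 0 < T) (k : ℕ) (hk : 1 ≤ k) (hL : ∀ L x, x ∈ box L → A x ∈ box (k * L))
    (h : ExpDecay R' J' T ε) : ExpDecay R J T ε := by
  have hprob : IsProbabilityMeasure gam := by unfold gam; infer_instance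
  obtain ⟨C, hC, c, hc, hb⟩ := h
  have hk0 : (0 : ℝ) < k := by exact_mod_cast hk
  refine ⟨(C + 1) * Real.exp c, by positivity, c / k, by positivity, ?_⟩
  intro L hL1
  have hLr : (L : ℝ) < k * ((L / k : ℕ) + 1 : ℝ) := by
    have h1 := Nat.lt_mul_div_succ L (show 0 < k by omega)
    exact_mod_cast h1
  have hexp : Real.exp (-(c * ((L / k : ℕ) : ℝ))) ≤ Real.exp c * Real.exp (-(c / k * L)) := by
    rw [← Real.exp_add]
    refine Real.exp_le_exp.2 ?_
    have h2 : c / k * L ≤ c * (((L / k : ℕ) : ℝ) + 1) := by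
      have h3 : c / k * L ≤ c / k * (k * ((L / k : ℕ) + 1 : ℝ)) :=
        mul_le_mul_of_nonneg_left hLr.le (by positivity)
      have h4 : c / k * (k * ((L / k : ℕ) + 1 : ℝ)) = c * (((L / k : ℕ) : ℝ) + 1) := by
        field_simp
      linarith
    linarith
  have hpos : 0 ≤ Real.exp c * Real.exp (-(c / k * L)) := by positivity
  rcases Nat.eq_zero_or_pos (L / k) with h0 | h0
  · have h1 : mag R J T ε L ≤ 1 := by
      rw [mag_eq R J T ε hT]
      calc ∫ η, inf1 R J (fun x => ε * η x) T (box L) 0 ∂gam ≤ ∫ _η : Site → ℝ, (1 : ℝ) ∂gam := by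
            refine integral_mono (inf1_int hINF hCNT R J hJ T ε hT _ 0 (zero_mem_box L))
              (integrable_const _) fun η => ?_
            exact ((hINF R J hJ (fun x => ε * η x) T hT).1 _ 0 (zero_mem_box L)).2.2
        _ = 1 := by simp
    rw [h0] at hexp
    simp only [Nat.cast_zero, mul_zero, neg_zero, Real.exp_zero] at hexp
    have h2 : (C + 1) * Real.exp c * Real.exp (-(c / k * L)) =
        (C + 1) * (Real.exp c * Real.exp (-(c / k * L))) := by ring
    rw [h2]
    nlinarith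
  · have h1 : mag R J T ε L ≤ mag R' J' T ε (L / k) := by
      refine mag_lin' hINF hCNT A R R' J J' hJ hJ' hJJ T ε hT L (L / k) fun x hx => ?_
      have h2 := hL (L / k) x hx
      rw [Pool.Agent.H11.RFC.mem_box] at h2 ⊢
      have h3 : k * (L / k) ≤ L := Nat.mul_div_le L k
      have h4 : ((k * (L / k) : ℕ) : ℤ) ≤ (L : ℤ) := by exact_mod_cast h3
      obtain ⟨⟨a, b⟩, c', d⟩ := h2
      refine ⟨⟨?_, ?_⟩, ?_, ?_⟩ <;> linarith
    have h2 := hb (L / k) h0
    have h3 : (C + 1) * Real.exp c * Real.exp (-(c / k * L)) =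
        (C + 1) * (Real.exp c * Real.exp (-(c / k * L))) := by ring
    rw [h3]
    have h4 : C * Real.exp (-(c * ((L / k : ℕ) : ℝ))) ≤
        C * (Real.exp c * Real.exp (-(c / k * L))) := mul_le_mul_of_nonneg_left hexp hC.le
    linarith

/-- The automorphism with columns `a`, `b`. -/
def au2 (a b : Site) (d : ℤ) (hd : a.1 * b.2 - a.2 * b.1 = d) (hd2 : d * d = 1) :
    Site ≃+ Site where
  toFun x := (x.1 * a.1 + x.2 * b.1, x.1 * a.2 + x.2 * b.2)
  invFun x := (d * (x.1 * b.2 - x.2 * b.1), d * (x.2 * a.1 - x.1 * a.2))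
  left_inv x := by
    ext
    · simp only
      linear_combination (x.1 * d) * hd + x.1 * hd2
    · simp only
      linear_combination (x.2 * d) * hd + x.2 * hd2
  right_inv x := by
    ext
    · simp only
      linear_combination (x.1 * d) * hd + x.1 * hd2
    · simp only
      linear_combination (x.2 * d) * hd + x.2 * hd2
  map_add' x y := by
    ext
    · simp only [Prod.fst_add, Prod.snd_add]
      ring
    · simp only [Prod.fst_add, Prod.snd_add]
      ring

/-- LIN3: change of lattice. -/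
theorem pf_LIN3 (hINF : D_INF) (hCNT : D_CNT) : R_LIN := by
  intro R R' J J' hJ hJ' a b hdet hJJ T ε hT hE
  obtain ⟨d, hd, hd2⟩ : ∃ d : ℤ, a.1 * b.2 - a.2 * b.1 = d ∧ d * d = 1 := by
    unfold fdet at hdet
    rcases hdet with h | h
    · exact ⟨1, h, by norm_num⟩
    · exact ⟨-1, h, by norm_num⟩
  obtain ⟨A, hA⟩ : ∃ A : Site ≃+ Site, ∀ x : Site, A x =
      (x.1 * a.1 + x.2 * b.1, x.1 * a.2 + x.2 * b.2) := ⟨au2 a b d hd hd2, fun x => rfl⟩
  refine exp_lin' hINF hCNT A R R' J J' hJ hJ' (fun z => by rw [hA, hJJ]) T ε hT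
    (a.1.natAbs + b.1.natAbs + a.2.natAbs + b.2.natAbs + 1) (by omega) ?_ hE
  intro L x hx
  rw [hA]
  rw [Pool.Agent.H11.RFC.mem_box] at hx ⊢
  obtain ⟨⟨h1, h2⟩, h3, h4⟩ := hx
  have hx1 : |x.1| ≤ L := abs_le.2 ⟨h1, h2⟩
  have hx2 : |x.2| ≤ L := abs_le.2 ⟨h3, h4⟩
  have key : ∀ s t : ℤ, |x.1 * s + x.2 * t| ≤ (|s| + |t|) * L := by
    intro s t
    refine (abs_add_le _ _).trans ?_
    rw [abs_mul, abs_mul]
    have e1 := mul_le_mul_of_nonneg_right hx1 (abs_nonneg s)
    have e2 := mul_le_mul_of_nonneg_right hx2 (abs_nonneg t)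
    linarith
  have hL0 : (0 : ℤ) ≤ L := by positivity
  push_cast
  rw [← abs_le, ← abs_le]
  constructor
  · refine (key a.1 b.1).trans (mul_le_mul_of_nonneg_right ?_ hL0)
    have := abs_nonneg a.2
    have := abs_nonneg b.2
    linarith
  · refine (key a.2 b.2).trans (mul_le_mul_of_nonneg_right ?_ hL0)
    have := abs_nonneg a.1
    have := abs_nonneg b.1
    linarith

end Pool.Agent.H12.RFT
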