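import Pool.Agent.H98.RFT.Targets4
import Pool.Agent.H14.RFT.ANN1

/-!
# Row VINV of the board rft_modules (MP_057a7e_pr)

Without exponential decay `L m(L)` tends to infinity, positive temperature.
-/

set_option autoImplicit false

noncomputable section

open MeasureTheory ProbabilityTheory Filter Topology

namespace Pool.Agent.H12.RFT

open Pool.Agent.H98.RFC Pool.Agent.H98.RFZ Pool.Agent.H98.RFT

/-- Integer points in a strip. -/
theorem strip_count (n u : ℕ) (a b : ℤ) (ha : a ≠ 0) (hab : |b| ≤ |a|) (F : Finset Site)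
    (g : Site → ℤ × ℤ) (hg : Function.Injective g)
    (h1 : ∀ x ∈ F, -(n : ℤ) ≤ (g x).1 ∧ (g x).1 ≤ n)
    (h2 : ∀ x ∈ F, |((a : ℝ) * (g x).2 - b * (g x).1)| ≤ 3 * u * Real.sqrt ((a : ℝ) ^ 2 + b ^ 2)) :
    F.card ≤ (2 * n + 1) * (10 * u + 1) := by
  classical
  have haR : (a : ℝ) ≠ 0 := by exact_mod_cast ha
  have hapos : 0 < |(a : ℝ)| := abs_pos.mpr haR
  have habR : |(b : ℝ)| ≤ |(a : ℝ)| := by exact_mod_cast hab
  have hsq : Real.sqrt ((a : ℝ) ^ 2 + b ^ 2) ≤ 3 / 2 * |(a : ℝ)| := by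
    rw [Real.sqrt_le_left (by positivity), mul_pow, sq_abs]
    have h3 : (b : ℝ) ^ 2 ≤ (a : ℝ) ^ 2 := sq_le_sq.mpr habR
    nlinarith [sq_nonneg (a : ℝ)]
  let φ : Site → ℤ × ℤ := fun x => ((g x).1, (g x).2 - ⌊(b : ℝ) * (g x).1 / a⌋)
  have hmaps : ∀ x ∈ F, φ x ∈ Finset.Icc (-(n : ℤ)) n ×ˢ Finset.Icc (-(5 * u : ℤ)) (5 * u) := by
    intro x hx
    rw [Finset.mem_product, Finset.mem_Icc, Finset.mem_Icc]
    refine ⟨h1 x hx, ?_⟩
    have h3 := h2 x hx
    have h4 : |((g x).2 : ℝ) - b * (g x).1 / a| ≤ 9 / 2 * u := by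
      have h5 : (a : ℝ) * (g x).2 - b * (g x).1 = a * ((g x).2 - b * (g x).1 / a) := by
        field_simp
      rw [h5, abs_mul] at h3
      have h6 : |(a : ℝ)| * |((g x).2 : ℝ) - b * (g x).1 / a| ≤ |(a : ℝ)| * (9 / 2 * u) := by
        refine h3.trans ?_
        have h7 : 3 * (u : ℝ) * Real.sqrt ((a : ℝ) ^ 2 + b ^ 2) ≤ 3 * u * (3 / 2 * |(a : ℝ)|) :=
          mul_le_mul_of_nonneg_left hsq (by positivity)
        refine h7.trans (le_of_eq (by ring))
      exact le_of_mul_le_mul_left h6 hapos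
    have h8 := abs_le.mp h4
    have h9 := Int.floor_le ((b : ℝ) * (g x).1 / a)
    have h10 := Int.lt_floor_add_one ((b : ℝ) * (g x).1 / a)
    have hu0 : (0 : ℝ) ≤ u := Nat.cast_nonneg _
    constructor
    · have : (-(5 * u : ℝ)) ≤ ((g x).2 : ℝ) - ⌊(b : ℝ) * (g x).1 / a⌋ := by linarith [h8.1]
      show (-(5 * u : ℤ)) ≤ (g x).2 - ⌊(b : ℝ) * (g x).1 / a⌋
      exact_mod_cast this
    · have : ((g x).2 : ℝ) - ⌊(b : ℝ) * (g x).1 / a⌋ < 5 * u + 1 := by linarith [h8.2]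
      have h11 : (g x).2 - ⌊(b : ℝ) * (g x).1 / a⌋ < 5 * (u : ℤ) + 1 := by exact_mod_cast this
      show (g x).2 - ⌊(b : ℝ) * (g x).1 / a⌋ ≤ 5 * (u : ℤ)
      omega
  have hinj : Set.InjOn φ F := by
    intro x _ y _ hxy
    simp only [φ, Prod.mk.injEq] at hxy
    obtain ⟨e1, e2⟩ := hxy
    rw [e1] at e2
    exact hg (Prod.ext e1 (by linarith))
  have h3 := Finset.card_le_card_of_injOn φ hmaps hinj
  refine h3.trans (le_of_eq ?_)
  rw [Finset.card_product, Int.card_Icc, Int.card_Icc]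
  congr 1 <;> omega

theorem filter_count (κ u M : ℕ) (v : Site) (hM : 3 ≤ M) (hv : InVM M v) :
    ((box (2 * (κ * u))).filter
      (fun x => |(fdet v x : ℝ)| ≤ 3 * u * nrm v)).card ≤ (2 * (2 * (κ * u)) + 1) * (10 * u + 1) := by
  classical
  have hv0 : ¬ (v.1 = 0 ∧ v.2 = 0) := by
    rintro ⟨e1, e2⟩
    have h1 := hv.1
    unfold nsq at h1
    rw [e1, e2] at h1
    have h2 : (1 : ℤ) ≤ (M : ℤ) - 2 := by
      have : (3 : ℤ) ≤ M := by exact_mod_cast hM
      omega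
    nlinarith
  have hn : nrm v = Real.sqrt ((v.1 : ℝ) ^ 2 + (v.2 : ℝ) ^ 2) := by
    unfold nrm nsq
    push_cast
    rfl
  have hbox : ∀ x ∈ (box (2 * (κ * u))).filter (fun x => |(fdet v x : ℝ)| ≤ 3 * u * nrm v),
      (-((2 * (κ * u) : ℕ) : ℤ) ≤ x.1 ∧ x.1 ≤ ((2 * (κ * u) : ℕ) : ℤ)) ∧
      (-((2 * (κ * u) : ℕ) : ℤ) ≤ x.2 ∧ x.2 ≤ ((2 * (κ * u) : ℕ) : ℤ)) ∧
      |(fdet v x : ℝ)| ≤ 3 * u * nrm v := by
    intro x hx
    rw [Finset.mem_filter] at hx
    obtain ⟨hx1, hx2⟩ := hx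
    unfold box at hx1
    rw [Finset.mem_product, Finset.mem_Icc, Finset.mem_Icc] at hx1
    exact ⟨hx1.1, hx1.2, hx2⟩
  rcases le_total |v.2| |v.1| with h | h
  · refine strip_count (2 * (κ * u)) u v.1 v.2 ?_ h _ (fun x => x) (fun _ _ h => h)
      (fun x hx => (hbox x hx).1) (fun x hx => ?_)
    · intro e1
      rw [e1, abs_zero] at h
      exact hv0 ⟨e1, abs_eq_zero.mp (le_antisymm h (abs_nonneg _))⟩
    · have h3 := (hbox x hx).2.2
      rw [hn] at h3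
      unfold fdet at h3
      push_cast at h3
      exact h3
  · refine strip_count (2 * (κ * u)) u v.2 v.1 ?_ h _ Prod.swap Prod.swap_injective
      (fun x hx => (hbox x hx).2.1) (fun x hx => ?_)
    · intro e1
      rw [e1, abs_zero] at h
      exact hv0 ⟨abs_eq_zero.mp (le_antisymm h (abs_nonneg _)), e1⟩
    · have h3 := (hbox x hx).2.2
      rw [hn] at h3
      unfold fdet at h3
      push_cast at h3
      rw [abs_sub_comm, add_comm ((v.1 : ℝ) ^ 2)] at h3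
      exact h3

/-- Without exponential decay `L m(L)` tends to infinity. -/
theorem pf_VINV (hSTR : T_STR) (hONE : V_ONE) (hINF : D_INF) (hCNT : D_CNT) (hTRQ : D_TRQ)
    (hTRG : T_TRG) (hALL : T_ALL) : V_INV := by
  classical
  intro R J hJ T ε hT hε hne B
  have hR : 1 ≤ R := by
    by_contra h
    have hR0 : R = 0 := by omega
    subst hR0
    have h1 := (hALL 0).2.1 J hJ T ε hT.le hne 0
    norm_num at h1
  have hRr : (1 : ℝ) ≤ R := by exact_mod_cast hR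
  obtain ⟨φ, hφ, -, hS⟩ := hSTR R J hJ T ε hT hε hne
  obtain ⟨κ, hκ⟩ : ∃ κ : ℕ, 400 * (R : ℝ) * |B| + 4 ≤ κ := exists_nat_ge _
  have hκ4r : (4 : ℝ) ≤ κ := by
    have : 0 ≤ 400 * (R : ℝ) * |B| := by positivity
    linarith
  have hκ4 : 4 ≤ κ := by exact_mod_cast hκ4r
  obtain ⟨M, hM⟩ : ∃ M : ℕ, M = 40 * κ + 100 + ⌈100 / φ⌉₊ := ⟨_, rfl⟩
  have hM1 : 100 / φ ≤ (M : ℝ) := by
    rw [hM]
    push_cast
    have := Nat.le_ceil (100 / φ)
    have h2 : (0 : ℝ) ≤ κ := Nat.cast_nonneg _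
    linarith
  obtain ⟨u₀, hu₀⟩ := hS M (M + 40 * κ + 100) (1 / 2) hM1 (by omega) (by omega)
    (by norm_num) (by norm_num)
  refine ⟨6 * κ * (u₀ + 10 * R + 10), fun L hL => ?_⟩
  obtain ⟨u, hu⟩ : ∃ u : ℕ, u = L / (6 * κ) + 1 := ⟨_, rfl⟩
  have h6κ : 0 < 6 * κ := by omega
  have hu1 : u₀ + 10 * R + 10 ≤ L / (6 * κ) :=
    (Nat.le_div_iff_mul_le h6κ).2 (by rw [mul_comm]; exact hL)
  have huu : u₀ ≤ u := by omega
  have huR : 10 * R + 10 ≤ u := by omega
  have hL1 : L ≤ 6 * (κ * u) := by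
    have h1 : L < 6 * κ * (L / (6 * κ) + 1) := Nat.lt_mul_div_succ L h6κ
    rw [← hu] at h1
    have h2 : 6 * κ * u = 6 * (κ * u) := by ring
    omega
  have hL2 : 3 * (κ * u) ≤ L := by
    have h1 : 6 * κ * (L / (6 * κ)) ≤ L := Nat.mul_div_le L (6 * κ)
    have h2 : 2 * u ≤ 2 * (L / (6 * κ)) + 2 := by omega
    have h3 : 1 ≤ L / (6 * κ) := by omega
    have h4 : u ≤ 2 * (L / (6 * κ)) := by omega
    have h5 : 3 * κ * u ≤ 3 * κ * (2 * (L / (6 * κ))) := Nat.mul_le_mul_left _ h4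
    have h6 : 3 * κ * (2 * (L / (6 * κ))) = 6 * κ * (L / (6 * κ)) := by ring
    have h7 : 3 * κ * u = 3 * (κ * u) := by ring
    omega
  obtain ⟨v, -, hv, -, -, hp, -⟩ := hu₀ u huu
  have h1 := hONE R J hJ T ε hT κ M (M + 40 * κ + 100) u v hκ4 huR (by omega) le_rfl hv
    (by linarith)
  -- the influences
  set F : Finset Site := (box (2 * (κ * u))).filter
    (fun x => |(fdet v x : ℝ)| ≤ 3 * u * nrm v) with hF
  have h0L : (0 : Site) ∈ box L := by
    rw [box, Finset.mem_product, Finset.mem_Icc, Finset.mem_Icc]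
    simp
  have hmag : mag R J T ε L = ∫ η, inf1 R J (fun z => ε * η z) T (box L) 0 ∂gam := by
    unfold mag infl
    simp only [hT.ne', if_false]
  have hinf : ∀ x ∈ F, ∫ η, inf1 R J (fun z => ε * η z) T (box (8 * (κ * u))) x ∂gam ≤
      mag R J T ε L := by
    intro x hx
    rw [hF, Finset.mem_filter] at hx
    have hx1 := hx.1
    rw [box, Finset.mem_product, Finset.mem_Icc, Finset.mem_Icc] at hx1
    have hsub : (box L).image (fun z => x + z) ⊆ box (8 * (κ * u)) := by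
      intro z hz
      rw [Finset.mem_image] at hz
      obtain ⟨w, hw, rfl⟩ := hz
      rw [box, Finset.mem_product, Finset.mem_Icc, Finset.mem_Icc] at hw
      rw [box, Finset.mem_product, Finset.mem_Icc, Finset.mem_Icc]
      have hL1' : (L : ℤ) ≤ 6 * ((κ * u : ℕ) : ℤ) := by exact_mod_cast hL1
      have e1 : (x + w).1 = x.1 + w.1 := rfl
      have e2 : (x + w).2 = x.2 + w.2 := rfl
      rw [e1, e2]
      have e3 : ((2 * (κ * u) : ℕ) : ℤ) = 2 * ((κ * u : ℕ) : ℤ) := by push_cast; ring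
      have e4 : ((8 * (κ * u) : ℕ) : ℤ) = 8 * ((κ * u : ℕ) : ℤ) := by push_cast; ring
      rw [e3] at hx1
      rw [e4]
      omega
    have hxW : x ∈ (box L).image (fun z => x + z) := by
      rw [Finset.mem_image]
      exact ⟨0, h0L, add_zero x⟩
    rw [hmag, ← Pool.Agent.H14.RFT.inf_trans hTRQ hCNT hTRG hT ε (box L) x]
    refine integral_mono (Pool.Agent.H14.RFT.int_inf hINF hCNT hJ hT ε _ (hsub hxW))
      (Pool.Agent.H14.RFT.int_inf hINF hCNT hJ hT ε _ hxW) fun η => ?_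
    exact ((hINF R J hJ (fun z => ε * η z) T hT).2.1 _ _ hsub x hxW).2
  have hm0 : 0 ≤ mag R J T ε L := by
    rw [hmag]
    exact integral_nonneg fun η => ((hINF R J hJ (fun z => ε * η z) T hT).1 _ 0 h0L).2.1
  have hcard : (F.card : ℝ) ≤ 55 * κ * u ^ 2 := by
    have h2 : F.card ≤ (2 * (2 * (κ * u)) + 1) * (10 * u + 1) :=
      filter_count κ u M v (by omega) hv
    have hu1' : 1 ≤ u := by omega
    have h3 : 1 ≤ κ * u := Nat.mul_pos (by omega) hu1'
    have h4 : (2 * (2 * (κ * u)) + 1) * (10 * u + 1) ≤ (5 * (κ * u)) * (11 * u) :=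
      Nat.mul_le_mul (by omega) (by omega)
    have h5 : F.card ≤ (5 * (κ * u)) * (11 * u) := h2.trans h4
    have h6 : (F.card : ℝ) ≤ (5 * ((κ : ℝ) * u)) * (11 * u) := by exact_mod_cast h5
    refine h6.trans (le_of_eq (by ring))
  have hsum : ∑ x ∈ F, ∫ η, inf1 R J (fun z => ε * η z) T (box (8 * (κ * u))) x ∂gam ≤
      55 * κ * u ^ 2 * mag R J T ε L := by
    refine (Finset.sum_le_sum hinf).trans ?_
    rw [Finset.sum_const, nsmul_eq_mul]
    exact mul_le_mul_of_nonneg_right hcard hm0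
  have hur : (1 : ℝ) ≤ u := by
    have : 1 ≤ u := by omega
    exact_mod_cast this
  have hκu : (0 : ℝ) < (κ : ℝ) * u := by positivity
  have h2 : (κ * u : ℝ) * 1 ≤ (κ * u : ℝ) * (220 * R * (u * mag R J T ε L)) := by
    have h3 : 4 * (R : ℝ) * ∑ x ∈ F, ∫ η, inf1 R J (fun z => ε * η z) T (box (8 * (κ * u))) x ∂gam
        ≤ 4 * R * (55 * κ * u ^ 2 * mag R J T ε L) :=
      mul_le_mul_of_nonneg_left hsum (by positivity)
    have h4 : 4 * (R : ℝ) * (55 * κ * u ^ 2 * mag R J T ε L) =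
        (κ * u : ℝ) * (220 * R * (u * mag R J T ε L)) := by ring
    linarith
  have h3 : 1 ≤ 220 * R * (u * mag R J T ε L) := le_of_mul_le_mul_left h2 hκu
  have h4 : 3 * ((κ : ℝ) * u) * mag R J T ε L ≤ L * mag R J T ε L := by
    refine mul_le_mul_of_nonneg_right ?_ hm0
    exact_mod_cast hL2
  refine le_trans ?_ h4
  have h5 : 0 ≤ (u : ℝ) * mag R J T ε L := by positivity
  have h6 : |B| ≤ |B| * (220 * R * (u * mag R J T ε L)) :=
    le_mul_of_one_le_right (abs_nonneg B) h3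
  have h7 : |B| * (220 * R * (u * mag R J T ε L)) = 220 * R * |B| * (u * mag R J T ε L) := by ring
  have h8 : 220 * R * |B| * (u * mag R J T ε L) ≤ 3 * κ * (u * mag R J T ε L) := by
    refine mul_le_mul_of_nonneg_right ?_ h5
    have : 0 ≤ (R : ℝ) * |B| := by positivity
    nlinarith
  have h9 := le_abs_self B
  have h10 : 3 * (κ : ℝ) * (u * mag R J T ε L) = 3 * ((κ : ℝ) * u) * mag R J T ε L := by ring
  linarith

end Pool.Agent.H12.RFT
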